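import Mathlib
import Pool.Agent.P.MP_8ee1cf_lc.Main

/-! The algorithm for two-way transducers. -/

set_option synthInstance.maxSize 4096

namespace Pool.Agent.P.MP_8ee1cf_lc.TW

/-- Letters: copies of symbols, and the two contexts. -/
abbrev Let : Type := (Sym × ℕ) ⊕ Bool

/-- Edge labels: traversals of a letter, and the initial and final edges. -/
abbrev Key : Type := (Let × Bool × (ℕ × ℕ) × (ℕ × ℕ)) ⊕ (Bool × Bool × ℕ)

/-- Variables: minus one, switches, and coordinates of edges. -/
abbrev Vr : Type := Option (Head ⊕ (Sym × ℕ)) ⊕ (Key × ℕ × ℕ)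

instance decKey : DecidableEq Key := inferInstance

instance decVr : DecidableEq Vr := inferInstance

/-- Polynomials. -/
abbrev Pol : Type := List (List Vr)

/-- Nodes: boundary, direction, state. -/
abbrev Nd : Type := ℕ × ℕ × ℕ

/-- Edges of the crossing graph. -/
abbrev Ed : Type := Nd × Nd × Key

/-- Start node, presence monomial and value polynomial of a generic walk. -/
abbrev Wk : Type := Nd × List Vr × Pol

/-- The source. -/
def src : Nd := (0, 2, 0)

/-- The target. -/
def tgt : Nd := (0, 3, 0)

/-- Pairs of a side and a state. -/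
def prs (n : ℕ) : List (ℕ × ℕ) := (List.range 2).flatMap fun e => (List.range n).map fun p => (e, p)

/-- The traversals of the letter at place `i`. -/
def trav (n : ℕ) (b : Bool) (i : ℕ) (l : Let) : List Ed :=
  (prs n).flatMap fun s => (prs n).map fun r =>
    ((i + s.1, s.1, s.2), (i + r.1, 1 - r.1, r.2), Sum.inl (l, b, s, r))

/-- The crossing graph of side `b` on a word. -/
def gr (n : ℕ) (b : Bool) (t : List Let) : List Ed :=
  ((List.range n).map fun p => (src, (0, 0, p), Sum.inr (false, b, p))) ++
    ((List.range n).map fun q => ((t.length, 0, q), tgt, Sum.inr (true, b, q))) ++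
      (List.range t.length).flatMap fun i => trav n b i (t.getD i (Sum.inr false))

/-- Extend a generic walk by an edge. -/
def ext (e : Ed) (y : Wk) (j : ℕ) : Wk :=
  (e.1, Sum.inr (e.2.2, j, 0) :: y.2.1,
    (Sum.inr (e.2.2, j, 1) :: y.2.1) :: y.2.2.map fun m => Sum.inr (e.2.2, j, 2) :: m)

/-- One round of extensions. -/
def stp (g : List Ed) (k : ℕ) (acc : List Wk) : List Wk :=
  (tgt, [], [[]]) :: acc.flatMap fun y => g.flatMap fun e =>
    if e.2.1 = y.1 then (List.range k).map (ext e y) else []

/-- The generic walks to the target with fewer than `N` edges. -/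
def walks (g : List Ed) (k N : ℕ) : List Wk := (stp g k)^[N] []

/-- The length bound. -/
def bnd (g : List Ed) (k : ℕ) : ℕ := (g.length + 1) * (k + 1) + 1

/-- The values of the short generic walks from the source. -/
def vals (g : List Ed) (k : ℕ) : List Pol :=
  (walks g (k + 1) (bnd g k)).flatMap fun y => if y.1 = src then [y.2.2] else []

/-- The difference of two polynomials. -/
def dif (V W : Pol) : Pol := V ++ W.map fun m => Sum.inl none :: m

/-- Each value of the first list is zero or a value of the second list. -/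
def side (A B : List Pol) : List Pol := A.map fun V => osub (dif V) ([] :: B)

/-- All differences of the members of a list and zero. -/
def vand (ys : List Pol) : List Pol × List Pol :=
  ys.foldr (fun V acc => (V :: acc.1, acc.1.map (dif V) ++ acc.2)) ([[]], [])

/-- At most `k` nonzero values. -/
def few (k : ℕ) (A : List Pol) : List Pol :=
  (osub (fun _ : ℕ => A.map fun V => [V]) (List.range (k + 1))).map fun ys =>
    osub (fun V => V) (vand ys).2

/-- The polynomials saying that the two lists have the same nonzero values, at most `k`. -/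
def agr (k : ℕ) (A B : List Pol) : List Pol := side A B ++ side B A ++ few k A

/-- The polynomials of a word, with a switch monomial. -/
def polys (n k : ℕ) (s : List Vr) (t : List Let) : List Pol :=
  (agr k (vals (gr n true t) k) (vals (gr n false t) k)).map fun P => P.map fun m => s ++ m

/-- A word between the two contexts. -/
def ctx (w : List (Sym × ℕ)) : List Let := Sum.inr false :: (w.map Sum.inl ++ [Sum.inr true])

/-- The number of copies of a nonterminal. -/
def cc (n k : ℕ) : ℕ := (polys n k [] (ctx [(Sum.inr 0, 0)])).flatten.length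

/-- The copies of a letter. -/
def cop (c : ℕ) (x : Sym) : List (List (Sym × ℕ)) :=
  Sum.casesOn x (fun t => [[(Sum.inl t, 0)]]) fun B => (List.range c).map fun j => [(Sum.inr B, j)]

/-- The switch monomial. -/
def swi (h : Head) (w : List (Sym × ℕ)) : List Vr :=
  Sum.inl (some (Sum.inl h)) :: w.map fun s => Sum.inl (some (Sum.inr s))

/-- The polynomials of a table. -/
def gns (n k : ℕ) (T : Tab) : List Pol :=
  T.flatMap fun e => (osub (cop (cc n k)) e.2).flatMap fun w => polys n k (swi e.1 w) (ctx w)

/-- Certificates. -/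
abbrev Ct : Type := List (List Vr × Pol) × List (List Vr × Pol)

/-- The closure check. -/
def Chk (n k : ℕ) (G : Grammar) (T : Tab) (C : List Ct) : Prop :=
  ∀ p ∈ gns n k (phi G T), ∃ c ∈ C, Cert (gns n k T) p c

instance (n k : ℕ) (G : Grammar) (T : Tab) (C : List Ct) : Decidable (Chk n k G T C) := by
  unfold Chk; infer_instance

/-- The search step. -/
def srch (a : Grammar × ℕ × ℕ) (m : ℕ) : Option (List (List ℕ)) :=
  (Encodable.decode (α := ℕ × List Ct) m).bind fun nC =>
    if Chk a.2.1 a.2.2 a.1 (tab a.1 nC.1) nC.2 then some (outp a.1 (tab a.1 nC.1)) else none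

lemma mem_prs {n : ℕ} {s : ℕ × ℕ} : s ∈ prs n ↔ s.1 < 2 ∧ s.2 < n := by
  obtain ⟨p, j⟩ := s
  simp only [prs, List.mem_flatMap, List.mem_map, List.mem_range, Prod.mk.injEq]
  exact ⟨by rintro ⟨_, h, _, h', rfl, rfl⟩; exact ⟨h, h'⟩, fun h => ⟨_, h.1, _, h.2, rfl, rfl⟩⟩

lemma mem_gr {n : ℕ} {b : Bool} {t : List Let} {e : Ed} : e ∈ gr n b t ↔
    (∃ p < n, e = (src, (0, 0, p), Sum.inr (false, b, p))) ∨
    (∃ q < n, e = ((t.length, 0, q), tgt, Sum.inr (true, b, q))) ∨
    ∃ i < t.length, ∃ s r : ℕ × ℕ, (s.1 < 2 ∧ s.2 < n) ∧ (r.1 < 2 ∧ r.2 < n) ∧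
      e = ((i + s.1, s.1, s.2), (i + r.1, 1 - r.1, r.2),
        Sum.inl (t.getD i (Sum.inr false), b, s, r)) := by
  simp only [gr, trav, List.mem_append, List.mem_flatMap, List.mem_map, List.mem_range, mem_prs,
    or_assoc, eq_comm (b := e), exists_and_left]

lemma mem_walks {g : List Ed} {k N : ℕ} {y : Wk} : y ∈ walks g k (N + 1) ↔
    y = (tgt, [], [[]]) ∨
      ∃ z ∈ walks g k N, ∃ e ∈ g, e.2.1 = z.1 ∧ ∃ j < k, y = ext e z j := by
  rw [walks, Function.iterate_succ_apply', stp, List.mem_cons]
  simp only [List.mem_flatMap, List.mem_ite_nil_right, List.mem_map, List.mem_range,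
    eq_comm (b := y), walks]

lemma mem_vals {g : List Ed} {k : ℕ} {V : Pol} :
    V ∈ vals g k ↔ ∃ y ∈ walks g (k + 1) (bnd g k), y.1 = src ∧ V = y.2.2 := by
  simp only [vals, List.mem_flatMap, List.mem_ite_nil_right, List.mem_singleton]

lemma vand_fst (ys : List Pol) : (vand ys).1 = ys ++ [[]] := by
  induction ys with
  | nil => rfl
  | cons V ys ih => exact congrArg (V :: ·) ih

lemma vand_cons (V : Pol) (ys : List Pol) :
    (vand (V :: ys)).2 = (ys ++ [[]]).map (dif V) ++ (vand ys).2 := by
  rw [← vand_fst]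
  rfl

lemma mem_tup {β : Type} (A : List β) (l : List ℕ) (ys : List β) :
    ys ∈ osub (fun _ : ℕ => A.map fun V => [V]) l ↔ ys.length = l.length ∧ ∀ y ∈ ys, y ∈ A := by
  induction l generalizing ys with
  | nil => cases ys <;> simp
  | cons a l ih =>
    rw [mem_osub_cons]
    constructor
    · rintro ⟨_, hu, w, hw, rfl⟩
      obtain ⟨V, hV, rfl⟩ := List.mem_map.1 hu
      simpa [hV] using (ih w).1 hw
    · rintro ⟨h1, h2⟩
      cases ys with
      | nil => simp at h1
      | cons V ys =>
        exact ⟨[V], List.mem_map_of_mem (h2 V List.mem_cons_self), ys,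
          (ih ys).2 ⟨by simpa using h1, fun y hy => h2 y (List.mem_cons_of_mem _ hy)⟩, rfl⟩

lemma mem_gns {n k : ℕ} {T : Tab} {p : Pol} : p ∈ gns n k T ↔
    ∃ e ∈ T, ∃ w ∈ osub (cop (cc n k)) e.2, p ∈ polys n k (swi e.1 w) (ctx w) := by
  simp only [gns, List.mem_flatMap]

end Pool.Agent.P.MP_8ee1cf_lc.TW
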