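import Mathlib
import Pool.Agent.P.MP_8ee1cf_lc.Defs

/-! Two-way transducers and their test sets. -/

namespace Pool.Agent.P.MP_8ee1cf_lc.TW

/-- A nondeterministic two-way transducer with `n` states, input letters named by natural numbers
and output alphabet `Δ`: initial states, final states, and edges `(p, a, v, d, q)`: in state `p`
on the tape symbol `a`, write the word `v`, move the head by `d` and go to state `q`.
Tape symbols are the letters `Sum.inl t` and the end markers `Sum.inr false`, `Sum.inr true`. -/
structure TwoWay (n : ℕ) (Δ : Type) where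
  init : Set (Fin n)
  final : Set (Fin n)
  edges : Set (Fin n × (ℕ ⊕ Bool) × List Δ × SignType × Fin n)

/-- The input word between the two end markers. -/
def tape (u : List ℕ) : List (ℕ ⊕ Bool) := Sum.inr false :: (u.map Sum.inl ++ [Sum.inr true])

/-- `Run T w i p v j q`: on the tape `w`, from cell `i` in state `p` the transducer can reach
position `j` in state `q`, writing `v`. -/
inductive Run {n : ℕ} {Δ : Type} (T : TwoWay n Δ) (w : List (ℕ ⊕ Bool)) :
    ℕ → Fin n → List Δ → ℕ → Fin n → Prop
  | nil (i : ℕ) (p : Fin n) : Run T w i p [] i p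
  | cons (i j l : ℕ) (p q r : Fin n) (a : ℕ ⊕ Bool) (v v' : List Δ) (d : SignType) :
      (p, a, v, d, q) ∈ T.edges → w[i]? = some a → (j : ℤ) = i + d → Run T w j q v' l r →
      Run T w i p (v ++ v') l r

/-- The outputs on `u`: words written by runs that start on the left marker in an initial state
and leave the tape on the right in a final state. -/
def output {n : ℕ} {Δ : Type} (T : TwoWay n Δ) (u : List ℕ) : Set (List Δ) :=
  {v | ∃ p ∈ T.init, ∃ q ∈ T.final, Run T (tape u) 0 p v (tape u).length q}

/-- On the input `u` the two transducers have the same outputs, at most `k` of them. -/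
def Agree {n : ℕ} {Δ : Type} (k : ℕ) (T U : TwoWay n Δ) (u : List ℕ) : Prop :=
  output T u = output U u ∧ (output T u).encard ≤ k

/-- The finite list `F` of words of `L` tests `k`-valued agreement on `L` of two-way transducers
with `n` states. -/
def IsTwoWayTestSet (n k : ℕ) (F : List (List ℕ)) (L : Set (List ℕ)) : Prop :=
  (∀ w ∈ F, w ∈ L) ∧
    ∀ (Δ : Type) (T U : TwoWay n Δ), (∀ w ∈ L, Agree k T U w) ↔ ∀ w ∈ F, Agree k T U w

end Pool.Agent.P.MP_8ee1cf_lc.TW
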