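import Mathlib
import Pool.Agent.P.MP_8ee1cf_lc.TW.Algo

/-! The meaning of the polynomials. -/

namespace Pool.Agent.P.MP_8ee1cf_lc.TW

/-- An encoding of words by nonzero field elements on which left multiplication is affine. -/
structure Enc (Δ K : Type) [Field K] where
  en : List Δ → K
  val : List Δ → K
  sc : List Δ → K
  nil : en [] = 1
  app : ∀ u v, en (u ++ v) = val u + sc u * en v
  inj : Function.Injective en
  ne : ∀ v, en v ≠ 0

/-- The polynomial of a word. -/
noncomputable def wpol {Δ : Type} : List Δ → Polynomial (MvPolynomial Δ ℤ)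
  | [] => 1
  | d :: v => Polynomial.C (MvPolynomial.X d) + Polynomial.X * wpol v

lemma wpol_app {Δ : Type} (u v : List Δ) : wpol (u ++ v) =
    wpol u - Polynomial.X ^ u.length + Polynomial.X ^ u.length * wpol v := by
  induction u with
  | nil => simp [wpol]
  | cons d u ih => simp only [List.cons_append, wpol, ih, List.length_cons]; ring

lemma X_ne_one {Δ : Type} (d : Δ) : (MvPolynomial.X d : MvPolynomial Δ ℤ) ≠ 1 := fun h => by
  simpa using congrArg MvPolynomial.constantCoeff h

lemma wpol_inj {Δ : Type} : ∀ u v : List Δ, wpol u = wpol v → u = v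
  | [], [], _ => rfl
  | [], d :: v, h => by
    have := congrArg (fun p => Polynomial.coeff p 0) h
    simp only [wpol] at this
    exact absurd (by simpa using this.symm) (X_ne_one d)
  | d :: u, [], h => by
    have := congrArg (fun p => Polynomial.coeff p 0) h
    simp only [wpol] at this
    exact absurd (by simpa using this) (X_ne_one d)
  | d :: u, e :: v, h => by
    have := congrArg (fun p => Polynomial.coeff p 0) h
    simp only [wpol] at this h
    have e1 : d = e := MvPolynomial.X_injective (R := ℤ) (by simpa using this)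
    subst e1
    rw [wpol_inj u v (mul_left_cancel₀ Polynomial.X_ne_zero (add_left_cancel h))]

lemma wpol_ne {Δ : Type} (v : List Δ) : wpol v ≠ 0 := fun h => by
  have := congrArg (fun p => Polynomial.coeff p 0) h
  cases v <;> simp [wpol] at this

/-- The field of the encoding. -/
abbrev Fld (Δ : Type) : Type := FractionRing (Polynomial (MvPolynomial Δ ℤ))

/-- The encoding. -/
noncomputable def enc (Δ : Type) : Enc Δ (Fld Δ) where
  en v := algebraMap _ _ (wpol v)
  val v := algebraMap _ _ (wpol v - Polynomial.X ^ v.length)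
  sc v := algebraMap (Polynomial (MvPolynomial Δ ℤ)) _ (Polynomial.X ^ v.length)
  nil := by simp [wpol]
  app u v := by rw [wpol_app, map_add, map_mul]
  inj u v h := wpol_inj u v (IsFractionRing.injective _ _ h)
  ne v h := wpol_ne v (IsFractionRing.injective _ (Fld Δ) (h.trans (map_zero _).symm))

variable {Δ K : Type} [Field K] (E : Enc Δ K)

open scoped Classical in
/-- The `j`-th element of a finite set. -/
noncomputable def pick (A : Set (List Δ)) (j : ℕ) : Option (List Δ) :=
  if h : A.Finite then h.toFinset.toList[j]? else none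

lemma pick_mem {A : Set (List Δ)} {j : ℕ} {v : List Δ} (h : pick A j = some v) : v ∈ A := by
  unfold pick at h
  split_ifs at h with hA
  simpa using List.mem_of_getElem? h

lemma exists_pick {A : Set (List Δ)} {k : ℕ} (hA : A.encard ≤ k) {v : List Δ} (hv : v ∈ A) :
    ∃ j < k, pick A j = some v := by
  have hf : A.Finite := Set.finite_of_encard_le_coe hA
  have h1 : v ∈ hf.toFinset.toList := by simpa using hv
  obtain ⟨j, hj, e⟩ := List.getElem_of_mem h1
  refine ⟨j, hj.trans_le ?_, by rw [pick, dif_pos hf, List.getElem?_eq_getElem hj, e]⟩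
  rw [hf.encard_eq_coe_toFinset_card] at hA
  rw [Finset.length_toList]
  exact_mod_cast hA

/-- The coordinates of an edge. -/
noncomputable def co (A : Set (List Δ)) (j i : ℕ) : K :=
  (pick A j).elim 0 fun v => if i = 0 then 1 else if i = 1 then E.val v else E.sc v

/-- The values of the variables. -/
noncomputable def nu (D : Key → Set (List Δ)) (π : Head ⊕ (Sym × ℕ) → K) : Vr → K
  | Sum.inl none => -1
  | Sum.inl (some a) => π a
  | Sum.inr (c, j, i) => co E (D c) j i

/-- The outputs of walks to the target with fewer than `N` edges. -/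
def WW (D : Key → Set (List Δ)) (g : List Ed) : ℕ → Nd → Set (List Δ)
  | 0, _ => ∅
  | N + 1, a => {v | (a = tgt ∧ v = []) ∨
      ∃ e ∈ g, e.1 = a ∧ ∃ v1 ∈ D e.2.2, ∃ v2 ∈ WW D g N e.2.1, v = v1 ++ v2}

lemma evalP_consAll {V : Type} (ν : V → K) (v : V) (P : List (List V)) :
    evalP ν (P.map fun m => v :: m) = ν v * evalP ν P := by
  simpa using evalP_map_append ν [v] P

variable {D : Key → Set (List Δ)} (π : Head ⊕ (Sym × ℕ) → K)

lemma ext_sem (e : Ed) (z : Wk) (j : ℕ) :
    ((ext e z j).2.1.map (nu E D π)).prod = co E (D e.2.2) j 0 * (z.2.1.map (nu E D π)).prod ∧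
      evalP (nu E D π) (ext e z j).2.2 = co E (D e.2.2) j 1 * (z.2.1.map (nu E D π)).prod +
          co E (D e.2.2) j 2 * evalP (nu E D π) z.2.2 := by
  refine ⟨by simp [ext, nu], ?_⟩
  simp only [ext, evalP_cons, evalP_consAll]
  simp [nu]

lemma walks_sound {g : List Ed} {k N : ℕ} : ∀ y ∈ walks g k N,
    ((y.2.1.map (nu E D π)).prod = 0 ∧ evalP (nu E D π) y.2.2 = 0) ∨
      ∃ v ∈ WW D g N y.1, (y.2.1.map (nu E D π)).prod = 1 ∧ evalP (nu E D π) y.2.2 = E.en v := by
  induction N with
  | zero => simp [walks]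
  | succ N ih =>
    intro y hy
    obtain rfl | ⟨z, hz, e, he, h0, j, -, rfl⟩ := mem_walks.1 hy
    · exact Or.inr ⟨[], Or.inl ⟨rfl, rfl⟩, by simp, by simp [E.nil]⟩
    obtain ⟨e1, e2⟩ := ext_sem E (D := D) π e z j
    rw [e1, e2]
    obtain ⟨h1, h2⟩ | ⟨v, hv, h1, h2⟩ := ih z hz
    · exact Or.inl (by simp [h1, h2])
    · cases hc : pick (D e.2.2) j with
      | none => exact Or.inl (by simp [co, hc])
      | some u =>
        exact Or.inr ⟨u ++ v, Or.inr ⟨e, he, rfl, u, pick_mem hc, v, h0 ▸ hv, rfl⟩,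
          by simp [co, hc, h1], by simp [co, hc, h1, h2, E.app]⟩

lemma walks_complete {g : List Ed} {k N : ℕ} (hD : ∀ c, (D c).encard ≤ k) :
    ∀ a, ∀ v ∈ WW D g N a, ∃ y ∈ walks g k N, y.1 = a ∧
      (y.2.1.map (nu E D π)).prod = 1 ∧ evalP (nu E D π) y.2.2 = E.en v := by
  induction N with
  | zero => exact fun _ _ h => h.elim
  | succ N ih =>
    rintro _ _ (⟨rfl, rfl⟩ | ⟨e, he, rfl, u, hu, v, hv, rfl⟩)
    · exact ⟨_, mem_walks.2 (Or.inl rfl), rfl, by simp, by simp [E.nil]⟩
    obtain ⟨z, hz, h0, h1, h2⟩ := ih _ v hv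
    obtain ⟨j, hj, hc⟩ := exists_pick (hD e.2.2) hu
    obtain ⟨e1, e2⟩ := ext_sem E (D := D) π e z j
    exact ⟨_, mem_walks.2 (Or.inr ⟨z, hz, e, he, h0.symm, j, hj, rfl⟩), rfl,
      by simp [e1, co, hc, h1], by simp [e2, co, hc, h1, h2, E.app]⟩

/-- The nonzero values of the list encode the set. -/
def Rep (ν : Vr → K) (A : List Pol) (X : Set (List Δ)) : Prop :=
  (∀ V ∈ A, evalP ν V = 0 ∨ ∃ v ∈ X, evalP ν V = E.en v) ∧ ∀ v ∈ X, ∃ V ∈ A, evalP ν V = E.en v

lemma rep_vals {g : List Ed} {k : ℕ} (hD : ∀ c, (D c).encard ≤ (k + 1 : ℕ)) :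
    Rep E (nu E D π) (vals g k) (WW D g (bnd g k) src) := by
  refine ⟨fun V hV => ?_, fun v hv => ?_⟩
  · obtain ⟨y, hy, h0, rfl⟩ := mem_vals.1 hV
    exact (walks_sound E π y hy).imp (·.2) fun ⟨v, hv, h⟩ => ⟨v, h0 ▸ hv, h.2⟩
  · obtain ⟨y, hy, h0, -, h⟩ := walks_complete E π hD _ v hv
    exact ⟨_, mem_vals.2 ⟨y, hy, h0, rfl⟩, h⟩

lemma evalP_osub {V β : Type} (ν : V → K) (ch : β → List (List V)) (α : List β) :
    evalP ν (osub ch α) = (α.map fun x => evalP ν (ch x)).prod :=
  osub_sem ν ch α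

variable {ν : Vr → K} (hν : ν (Sum.inl none) = -1)
include hν

lemma evalP_dif (V W : Pol) : evalP ν (dif V W) = evalP ν V - evalP ν W := by
  rw [dif, evalP_append, evalP_consAll, hν]
  ring

lemma side_iff {A B : List Pol} {X Y : Set (List Δ)} (hA : Rep E ν A X) (hB : Rep E ν B Y) :
    (∀ P ∈ side A B, evalP ν P = 0) ↔ X ⊆ Y := by
  rw [side, List.forall_mem_map]
  simp only [evalP_osub, evalP_dif hν, List.prod_eq_zero_iff, List.mem_map, List.mem_cons]
  constructor
  · intro H v hv
    obtain ⟨V, hV, e⟩ := hA.2 v hv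
    obtain ⟨W, rfl | hW, e2⟩ := H V hV
    · exact absurd (by simpa [e] using e2) (E.ne v)
    · rw [e, sub_eq_zero] at e2
      obtain h2 | ⟨u, hu, h2⟩ := hB.1 W hW
      · exact absurd (e2.trans h2) (E.ne v)
      · exact E.inj (e2.trans h2) ▸ hu
  · intro H V hV
    obtain h2 | ⟨u, hu, h2⟩ := hA.1 V hV
    · exact ⟨[], Or.inl rfl, by simp [h2]⟩
    · obtain ⟨W, hW, e⟩ := hB.2 u (H hu)
      exact ⟨W, Or.inr hW, by rw [h2, e, sub_self]⟩

lemma vand_iff (ys : List Pol) : evalP ν (osub (fun V => V) (vand ys).2) ≠ 0 ↔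
    ((ys ++ [[]]).map (evalP ν)).Nodup := by
  rw [evalP_osub]
  induction ys with
  | nil => simp [vand]
  | cons V ys ih =>
    rw [vand_cons, List.map_append, List.prod_append, mul_ne_zero_iff, ih, List.cons_append,
      List.map_cons, List.nodup_cons, List.map_map]
    simp only [ne_eq, List.prod_eq_zero_iff, List.mem_map, Function.comp, evalP_dif hν,
      sub_eq_zero, eq_comm (a := evalP ν V)]

lemma few_iff {k : ℕ} {A : List Pol} {X : Set (List Δ)} (hA : Rep E ν A X) :
    (∀ P ∈ few k A, evalP ν P = 0) ↔ X.encard ≤ k := by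
  classical
  simp only [few, List.forall_mem_map, mem_tup, List.length_range]
  constructor
  · intro H
    by_contra h
    obtain ⟨Y, hY, e⟩ := Set.exists_subset_encard_eq (show ((k + 1 : ℕ) : ℕ∞) ≤ X.encard from
      Order.add_one_le_of_lt (not_le.1 h))
    have hf : Y.Finite := Set.finite_of_encard_eq_coe e
    choose! f h1 h2 using hA.2
    have hm : ∀ v ∈ hf.toFinset.toList, v ∈ X := fun v hv => hY (by simpa using hv)
    refine (vand_iff hν (hf.toFinset.toList.map f)).2 ?_ (H _ ⟨?_, ?_⟩)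
    · rw [List.map_append, List.map_map,
        List.map_congr_left (f := evalP ν ∘ f) (g := E.en) fun v hv => h2 v (hm v hv), List.nodup_append]
      refine ⟨(Finset.nodup_toList _).map E.inj, by simp, ?_⟩
      simp only [List.forall_mem_map, List.mem_singleton]
      rintro v - _ rfl
      exact E.ne v
    · rw [hf.encard_eq_coe_toFinset_card] at e
      rw [List.length_map, Finset.length_toList]
      exact_mod_cast e
    · simp only [List.forall_mem_map]
      exact fun v hv => h1 v (hm v hv)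
  · rintro H ys ⟨h1, h2⟩
    by_contra h
    have h3 := (vand_iff hν ys).1 h
    rw [List.map_append, List.nodup_append] at h3
    have h4 : ((ys.map (evalP ν)).toFinset : Set K) ⊆ E.en '' X := fun a ha => by
      obtain ⟨V, hV, rfl⟩ := List.mem_map.1 (List.mem_toFinset.1 ha)
      obtain e | ⟨v, hv, e⟩ := hA.1 V (h2 V hV)
      · exact absurd e (h3.2.2 _ (List.mem_map_of_mem hV) _ (by simp))
      · exact ⟨v, hv, e.symm⟩
    have h5 := ((Set.encard_le_encard h4).trans (Set.encard_image_le _ _)).trans H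
    rw [Set.encard_coe_eq_coe_finsetCard, List.toFinset_card_of_nodup h3.1, List.length_map,
      h1, Nat.cast_le] at h5
    omega

lemma agr_iff {k : ℕ} {A B : List Pol} {X Y : Set (List Δ)} (hA : Rep E ν A X)
    (hB : Rep E ν B Y) : (∀ P ∈ agr k A B, evalP ν P = 0) ↔ X = Y ∧ X.encard ≤ k := by
  rw [agr, List.forall_mem_append, List.forall_mem_append, side_iff E hν hA hB,
    side_iff E hν hB hA, few_iff E hν hA, Set.Subset.antisymm_iff]

end Pool.Agent.P.MP_8ee1cf_lc.TW
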