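import Mathlib
import Pool.Agent.P.MP_8ee1cf_lc.TW.Sem

/-! Short walks with few parallel edges detect all outputs when there are few outputs. -/

namespace Pool.Agent.P.MP_8ee1cf_lc.TW

lemma stab {β : Type} (f : ℕ → Set β) (hf : ∀ j, f j ⊆ f (j + 1)) (B : ℕ)
    (hB : (f (B + 1)).encard ≤ B) : ∃ j ≤ B, f (j + 1) ⊆ f j := by
  by_contra! h
  have key : ∀ j ≤ B + 1, (j : ℕ∞) ≤ (f j).encard := by
    intro j hj
    induction j with
    | zero => simp
    | succ j ih =>
      obtain ⟨a, h1, h2⟩ := Set.not_subset.1 (h j (by omega))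
      have := Set.encard_le_encard (Set.insert_subset h1 (hf j))
      rw [Set.encard_insert_of_notMem h2] at this
      rw [Nat.cast_succ]
      exact (add_le_add (ih (by omega)) le_rfl).trans this
  have := (key _ le_rfl).trans hB
  rw [Nat.cast_le] at this
  omega

lemma encard_fib {β γ : Type} (l : List β) (F : β → Set γ) (k : ℕ) (h : ∀ a, (F a).encard ≤ k) :
    {x : β × γ | x.1 ∈ l ∧ x.2 ∈ F x.1}.encard ≤ (l.length * k : ℕ) := by
  induction l with
  | nil => simp
  | cons a l ih =>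
    have : {x : β × γ | x.1 ∈ a :: l ∧ x.2 ∈ F x.1} ⊆
        {x : β × γ | x.1 ∈ l ∧ x.2 ∈ F x.1} ∪ Prod.mk a '' F a := by
      rintro ⟨b, v⟩ ⟨h1, h2⟩
      rcases List.mem_cons.1 h1 with rfl | h1
      exacts [Or.inr ⟨v, h2, rfl⟩, Or.inl ⟨h1, h2⟩]
    rw [List.length_cons, Nat.succ_mul, Nat.cast_add]
    exact (Set.encard_le_encard this).trans ((Set.encard_union_le _ _).trans
      (add_le_add ih ((Set.encard_image_le _ _).trans (h a))))

variable {Δ : Type}

lemma exists_tr (k : ℕ) (A : Set (List Δ)) : ∃ B ⊆ A, B.encard ≤ (k + 1 : ℕ) ∧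
    (B.encard ≤ k → A ⊆ B) := by
  by_cases h : A.encard ≤ k
  · exact ⟨A, le_rfl, h.trans (by simp), fun _ => le_rfl⟩
  · obtain ⟨Y, hY, e⟩ := Set.exists_subset_encard_eq (show ((k + 1 : ℕ) : ℕ∞) ≤ A.encard from
      Order.add_one_le_of_lt (not_le.1 h))
    refine ⟨Y, hY, e.le, fun h' => ?_⟩
    rw [e, Nat.cast_le] at h'
    omega

/-- At most `k + 1` elements of a set, all of them if there are at most `k`. -/
noncomputable def tr (k : ℕ) (A : Set (List Δ)) : Set (List Δ) := (exists_tr k A).choose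

lemma tr_sub (k : ℕ) (A : Set (List Δ)) : tr k A ⊆ A := (exists_tr k A).choose_spec.1

lemma tr_card (k : ℕ) (A : Set (List Δ)) : (tr k A).encard ≤ (k + 1 : ℕ) :=
  (exists_tr k A).choose_spec.2.1

lemma sub_tr {k : ℕ} {A : Set (List Δ)} (h : (tr k A).encard ≤ k) : A ⊆ tr k A :=
  (exists_tr k A).choose_spec.2.2 h

lemma tr_ne (k : ℕ) {A : Set (List Δ)} {v : List Δ} (h : v ∈ A) : (tr k A).Nonempty := by
  by_contra h'
  rw [Set.not_nonempty_iff_eq_empty] at h'
  exact (h' ▸ sub_tr (by simp [h']) h : v ∈ (∅ : Set (List Δ)))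

/-- Walks to the target. -/
inductive GW (D : Key → Set (List Δ)) (g : List Ed) : Nd → List Δ → Prop
  | nil : GW D g tgt []
  | cons (e : Ed) (v v' : List Δ) : e ∈ g → v ∈ D e.2.2 → GW D g e.2.1 v' → GW D g e.1 (v ++ v')

variable {D : Key → Set (List Δ)} {g : List Ed}

lemma WW_succ (N : ℕ) : ∀ a, WW D g N a ⊆ WW D g (N + 1) a := by
  induction N with
  | zero => exact fun _ _ h => h.elim
  | succ N ih =>
    rintro _ _ (h | ⟨e, he, rfl, u, hu, v, hv, rfl⟩)
    exacts [Or.inl h, Or.inr ⟨e, he, rfl, u, hu, v, ih _ hv, rfl⟩]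

lemma WW_mono {N N' : ℕ} (h : N ≤ N') (a : Nd) : WW D g N a ⊆ WW D g N' a :=
  monotone_nat_of_le_succ (f := fun N => WW D g N a) (fun N => WW_succ N a) h

lemma GW_of_WW {k N : ℕ} : ∀ a, ∀ v ∈ WW (fun c => tr k (D c)) g N a, GW D g a v := by
  induction N with
  | zero => exact fun _ _ h => h.elim
  | succ N ih =>
    rintro _ _ (⟨rfl, rfl⟩ | ⟨e, he, rfl, u, hu, v, hv, rfl⟩)
    exacts [.nil, .cons e u v he (tr_sub _ _ hu) (ih _ v hv)]

/-- Nodes reached from the source in at most `j` steps. -/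
def reach (D : Key → Set (List Δ)) (g : List Ed) : ℕ → Set Nd
  | 0 => {src}
  | j + 1 => reach D g j ∪ {b | ∃ e ∈ g, e.1 ∈ reach D g j ∧ (D e.2.2).Nonempty ∧ b = e.2.1}

lemma reach_sub (j : ℕ) : ∀ a ∈ reach D g j, a ∈ src :: g.map fun e => e.2.1 := by
  induction j with
  | zero => rintro _ rfl; exact List.mem_cons_self
  | succ j ih =>
    rintro a (h | ⟨e, he, -, -, rfl⟩)
    exacts [ih a h, List.mem_cons_of_mem _ (List.mem_map_of_mem he)]

lemma reach_acc (j : ℕ) : ∀ a ∈ reach D g j, ∃ u, ∀ N, ∀ v ∈ WW D g N a,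
    u ++ v ∈ WW D g (N + j) src := by
  induction j with
  | zero => rintro _ rfl; exact ⟨[], fun _ _ h => h⟩
  | succ j ih =>
    rintro a (h | ⟨e, he, h, ⟨w, hw⟩, rfl⟩)
    · obtain ⟨u, hu⟩ := ih a h
      exact ⟨u, fun N v hv => WW_succ _ _ (hu N v hv)⟩
    · obtain ⟨u, hu⟩ := ih _ h
      refine ⟨u ++ w, fun N v hv => ?_⟩
      have := hu (N + 1) _ (Or.inr ⟨e, he, rfl, w, hw, v, hv, rfl⟩)
      rwa [← List.append_assoc, add_assoc, add_comm 1] at this

lemma WW_of_GW {k : ℕ} (h : (WW (fun c => tr k (D c)) g (bnd g k) src).encard ≤ k) {v : List Δ}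
    (hv : GW D g src v) : v ∈ WW (fun c => tr k (D c)) g (bnd g k) src := by
  classical
  set D' : Key → Set (List Δ) := fun c => tr k (D c)
  set l := src :: g.map fun e => e.2.1
  have hl : l.length = g.length + 1 := by simp [l]
  obtain ⟨r, hr, hC⟩ := stab (reach D' g) (fun j => Set.subset_union_left) l.length (by
    refine (Set.encard_le_encard (t := l.toFinset) fun a ha =>
      List.mem_toFinset.2 (reach_sub _ a ha)).trans ?_
    rw [Set.encard_coe_eq_coe_finsetCard, Nat.cast_le]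
    exact List.toFinset_card_le l)
  have hfib : ∀ a ∈ reach D' g r, (WW D' g (l.length * k + 1) a).encard ≤ k := fun a ha => by
    obtain ⟨u, hu⟩ := reach_acc r a ha
    refine le_trans (Set.encard_le_encard_of_injOn (f := fun v => u ++ v) (fun v hv =>
      WW_mono ?_ _ (hu _ v hv)) fun a _ b _ e => by simpa using e) h
    rw [bnd, ← hl, mul_add]
    omega
  obtain ⟨j, hj, hS⟩ := stab
    (fun j => {x : Nd × List Δ | x.1 ∈ l ∧ x.2 ∈ {v | x.1 ∈ reach D' g r ∧ v ∈ WW D' g j x.1}})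
    (fun j x hx => ⟨hx.1, hx.2.1, WW_succ j _ hx.2.2⟩) (l.length * k)
    (encard_fib l (fun a => {v | a ∈ reach D' g r ∧ v ∈ WW D' g (l.length * k + 1) a}) k fun a => by
      by_cases ha : a ∈ reach D' g r
      · simpa [ha] using hfib a ha
      · simp [ha])
  have hS' : ∀ a ∈ reach D' g r, WW D' g (j + 1) a ⊆ WW D' g j a := fun a ha v hv =>
    (@hS (a, v) ⟨reach_sub r a ha, ha, hv⟩).2.2
  have key : ∀ a v, GW D g a v → a ∈ reach D' g r → v ∈ WW D' g j a := by
    intro a v h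
    induction h with
    | nil => exact fun ha => hS' _ ha (Or.inl ⟨rfl, rfl⟩)
    | cons e v v' he hv _ ih =>
      intro ha
      have h2 := ih (hC (Or.inr ⟨e, he, ha, tr_ne k hv, rfl⟩))
      refine hS' _ ha (Or.inr ⟨e, he, rfl, v, sub_tr ?_ hv, v', h2, rfl⟩)
      exact le_trans (Set.encard_le_encard_of_injOn (f := fun u => u ++ v') (fun u hu =>
        WW_mono (Nat.succ_le_succ hj) _ (Or.inr ⟨e, he, rfl, u, hu, v', h2, rfl⟩))
          fun a _ b _ e => by simpa using e) (hfib _ ha)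
  have h0 : src ∈ reach D' g r :=
    monotone_nat_of_le_succ (f := reach D' g) (fun _ => Set.subset_union_left) (Nat.zero_le r) rfl
  refine WW_mono ?_ _ (key _ _ hv h0)
  rw [bnd, ← hl, mul_add]
  omega

lemma agree_iff {k : ℕ} {g' : List Ed} :
    (WW (fun c => tr k (D c)) g (bnd g k) src = WW (fun c => tr k (D c)) g' (bnd g' k) src ∧
      (WW (fun c => tr k (D c)) g (bnd g k) src).encard ≤ k) ↔
    {v | GW D g src v} = {v | GW D g' src v} ∧ {v | GW D g src v}.encard ≤ k := by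
  have e : ∀ g : List Ed, (WW (fun c => tr k (D c)) g (bnd g k) src).encard ≤ k →
      WW (fun c => tr k (D c)) g (bnd g k) src = {v | GW D g src v} := fun g h =>
    Set.Subset.antisymm (GW_of_WW _) fun _ => WW_of_GW h
  constructor
  · rintro ⟨h1, h2⟩
    rw [← e g h2, ← e g' (h1 ▸ h2)]
    exact ⟨h1, h2⟩
  · rintro ⟨h1, h2⟩
    rw [e g ((Set.encard_le_encard (GW_of_WW _)).trans h2),
      e g' ((Set.encard_le_encard (GW_of_WW _)).trans ((congrArg _ h1).ge.trans h2))]
    exact ⟨h1, h2⟩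

lemma polys_iff {K : Type} [Field K] (E : Enc Δ K) (π : Head ⊕ (Sym × ℕ) → K) (n k : ℕ)
    (s : List Vr) (t : List Let) :
    (∀ P ∈ polys n k s t, evalP (nu E (fun c => tr k (D c)) π) P = 0) ↔
      ((s.map (nu E (fun c => tr k (D c)) π)).prod ≠ 0 →
        {v | GW D (gr n true t) src v} = {v | GW D (gr n false t) src v} ∧
          {v | GW D (gr n true t) src v}.encard ≤ k) := by
  rw [polys, List.forall_mem_map, ← agree_iff, ← agr_iff E rfl
    (rep_vals E π fun c => tr_card k (D c)) (rep_vals E π fun c => tr_card k (D c))]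
  simp only [evalP_map_append, mul_eq_zero]
  exact ⟨fun H h P hP => (H P hP).resolve_left h, fun H P hP =>
    (eq_or_ne _ _).imp_right fun h => H h P hP⟩

end Pool.Agent.P.MP_8ee1cf_lc.TW
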