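import Mathlib
import Pool.Agent.P.MP_8ee1cf_lc.TW.Defs
import Pool.Agent.P.MP_8ee1cf_lc.TW.Stab

/-! Runs on a product of words are walks in the crossing graph. -/

namespace Pool.Agent.P.MP_8ee1cf_lc.TW

variable {n : ℕ} {Δ : Type}

/-- Runs with positions shifted by one, so that the head may leave on the left. -/
inductive Seg (T : TwoWay n Δ) (w : List (ℕ ⊕ Bool)) : ℕ → Fin n → List Δ → ℕ → Fin n → Prop
  | nil (i : ℕ) (p : Fin n) : Seg T w i p [] i p
  | cons (i j l : ℕ) (p q r : Fin n) (a : ℕ ⊕ Bool) (v v' : List Δ) (d : SignType) :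
      (p, a, v, d, q) ∈ T.edges → w[i]? = some a → (j : ℤ) = i + 1 + d → Seg T w j q v' l r →
      Seg T w (i + 1) p (v ++ v') l r

section
variable {T : TwoWay n Δ} {w W : List (ℕ ⊕ Bool)} {i j l : ℕ} {p q r : Fin n} {v v' : List Δ}

lemma seg_of_run (h : Run T w i p v j q) : Seg T w (i + 1) p v (j + 1) q := by
  induction h with
  | nil => exact .nil _ _
  | cons i j l p q r a v v' d h1 h2 h3 _ ih =>
    exact .cons i (j + 1) _ p q r a v v' d h1 h2 (by push_cast; omega) ih

lemma run_of_seg (h : Seg T w i p v j q) : ∀ c, j = c + 1 → ∃ a, i = a + 1 ∧ Run T w a p v c q := by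
  induction h with
  | nil => exact fun c e => ⟨c, e, .nil _ _⟩
  | cons i j l p q r a v v' d h1 h2 h3 _ ih =>
    intro c e
    obtain ⟨a', rfl, h⟩ := ih c e
    exact ⟨i, rfl, .cons i a' c p q r a v v' d h1 h2 (by push_cast at h3; omega) h⟩

lemma Seg.append (h : Seg T w i p v j q) (h' : Seg T w j q v' l r) :
    Seg T w i p (v ++ v') l r := by
  induction h with
  | nil => exact h'
  | cons i j _ p q _ a v u d h1 h2 h3 _ ih =>
    simpa only [List.append_assoc] using Seg.cons i j l p q r a v _ d h1 h2 h3 (ih h')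

lemma Seg.shift (c : ℕ) (hW : ∀ x a, w[x]? = some a → W[c + x]? = some a)
    (h : Seg T w i p v j q) : Seg T W (c + i) p v (c + j) q := by
  induction h with
  | nil => exact .nil _ _
  | cons i j l p q r a v u d h1 h2 h3 _ ih =>
    exact .cons (c + i) (c + j) _ p q r a v u d h1 (hW _ _ h2) (by push_cast; omega) ih

end

/-- The outputs of traversals. -/
def DD (T : Bool → TwoWay n Δ) (fac : Let → List (ℕ ⊕ Bool)) : Key → Set (List Δ)
  | Sum.inl (l, b, s, r) => {v | ∃ p q : Fin n, s.2 = p ∧ r.2 = q ∧ Seg (T b) (fac l)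
      (if s.1 = 0 then 1 else (fac l).length) p v (if r.1 = 0 then 0 else (fac l).length + 1) q}
  | Sum.inr (false, b, p) => {v | v = [] ∧ ∃ i ∈ (T b).init, p = i}
  | Sum.inr (true, b, q) => {v | v = [] ∧ ∃ f ∈ (T b).final, q = f}

variable (fac : Let → List (ℕ ⊕ Bool)) (t : List Let)

/-- The position of a boundary. -/
def bb (i : ℕ) : ℕ := ((t.take i).flatMap fac).length

/-- The factor at a place. -/
def uu (i : ℕ) : List (ℕ ⊕ Bool) := fac (t.getD i (Sum.inr false))

variable {t}

lemma take_uu {i : ℕ} (hi : i < t.length) :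
    (t.take (i + 1)).flatMap fac = (t.take i).flatMap fac ++ uu fac t i := by
  rw [List.take_add_one, List.flatMap_append, uu, List.getD_eq_getElem?_getD,
    List.getElem?_eq_getElem hi]
  simp only [Option.toList_some, Option.getD_some, List.flatMap_singleton]

lemma bb_succ {i : ℕ} (hi : i < t.length) : bb fac t (i + 1) = bb fac t i + (uu fac t i).length := by
  rw [bb, take_uu fac hi, List.length_append, bb]

lemma bb_mono {i j : ℕ} (h : i ≤ j) (hj : j ≤ t.length) : bb fac t i ≤ bb fac t j := by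
  induction j, h using Nat.le_induction with
  | base => exact le_rfl
  | succ j _ ih => rw [bb_succ fac hj]; exact (ih (by omega)).trans (Nat.le_add_right _ _)

lemma bb_len : bb fac t t.length = (t.flatMap fac).length := by simp [bb]

lemma cell {i c : ℕ} (hi : i < t.length) (hc : c < (uu fac t i).length) :
    (t.flatMap fac)[bb fac t i + c]? = (uu fac t i)[c]? := by
  have e : t.flatMap fac =
      (t.take i).flatMap fac ++ uu fac t i ++ (t.drop (i + 1)).flatMap fac := by
    rw [← take_uu fac hi, ← List.flatMap_append, List.take_append_drop]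
  rw [e, bb, List.getElem?_append_left (by rw [List.length_append]; omega),
    List.getElem?_append_right (Nat.le_add_right _ _), Nat.add_sub_cancel_left]

lemma find_cell {x : ℕ} : ∀ m, x < bb fac t m → ∃ j < m, bb fac t j ≤ x ∧ x < bb fac t (j + 1)
  | 0, h => by simp [bb] at h
  | m + 1, h => by
    by_cases h' : x < bb fac t m
    · obtain ⟨j, hj, e⟩ := find_cell m h'
      exact ⟨j, by omega, e⟩
    · exact ⟨m, by omega, by omega, h⟩

variable {fac} {T : Bool → TwoWay n Δ} {b : Bool}

lemma gw_trav {i e e' : ℕ} (hi : i < t.length) (he : e < 2) (he' : e' < 2) {p q : Fin n}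
    {v v' : List Δ} (h : Seg (T b) (uu fac t i) (if e = 0 then 1 else (uu fac t i).length) p v
      (if e' = 0 then 0 else (uu fac t i).length + 1) q)
    (h' : GW (DD T fac) (gr n b t) (i + e', 1 - e', q) v') :
    GW (DD T fac) (gr n b t) (i + e, e, p) (v ++ v') :=
  .cons ((i + e, e, p), (i + e', 1 - e', q), Sum.inl (_, b, (e, p), (e', q))) v v'
    (mem_gr.2 (Or.inr (Or.inr ⟨i, hi, (e, p), (e', q), ⟨he, p.2⟩, ⟨he', q.2⟩, rfl⟩)))
    ⟨p, q, rfl, rfl, h⟩ h'

lemma bridgeR {i j : ℕ} (h : i ≤ j) (hj : j ≤ t.length) (e : bb fac t i = bb fac t j) {p : Fin n}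
    {v : List Δ} (H : GW (DD T fac) (gr n b t) (j, 0, p) v) :
    GW (DD T fac) (gr n b t) (i, 0, p) v := by
  induction j, h using Nat.le_induction with
  | base => exact H
  | succ j h ih =>
    have := bb_succ fac hj
    have := bb_mono fac h (by omega : j ≤ t.length)
    have h0 : (uu fac t j).length = 0 := by omega
    exact ih (by omega) (by omega)
      (gw_trav (e := 0) (e' := 1) hj (by omega) (by omega) (by simpa [h0] using .nil _ _) H)

lemma bridgeL {i j : ℕ} (h : j ≤ i) (hi : i ≤ t.length) (e : bb fac t j = bb fac t i) {p : Fin n}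
    {v : List Δ} (H : GW (DD T fac) (gr n b t) (j, 1, p) v) :
    GW (DD T fac) (gr n b t) (i, 1, p) v := by
  induction i, h using Nat.le_induction with
  | base => exact H
  | succ i h ih =>
    have := bb_succ fac hi
    have := bb_mono fac h (by omega : i ≤ t.length)
    have h0 : (uu fac t i).length = 0 := by omega
    exact gw_trav (e := 1) (e' := 0) hi (by omega) (by omega) (by simpa [h0] using .nil _ _)
      (ih (by omega) (by omega))

variable (fac t T b) in
/-- From the local position `a` of factor `i`, leave the factor and walk to the target. -/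
def Ex (i a : ℕ) (p : Fin n) (v : List Δ) : Prop :=
  ∃ e' < 2, ∃ q v1 v2, v = v1 ++ v2 ∧ Seg (T b) (uu fac t i) a p v1
    (if e' = 0 then 0 else (uu fac t i).length + 1) q ∧
    GW (DD T fac) (gr n b t) (i + e', 1 - e', q) v2

lemma ex_of {a : ℕ} {p : Fin n} {v : List Δ}
    (h1 : ∀ i ≤ t.length, ∀ e < 2, bb fac t i + 1 = a + e → GW (DD T fac) (gr n b t) (i, e, p) v)
    (h2 : ∀ i < t.length, ∀ c, bb fac t i + c + 1 = a → c < (uu fac t i).length →
      Ex fac t T b i (c + 1) p v) :
    ∀ i < t.length, ∀ c, bb fac t i + c = a → c ≤ (uu fac t i).length + 1 →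
      Ex fac t T b i c p v := by
  intro i hi c e hc
  have := bb_succ fac hi
  rcases c with _ | c
  · exact ⟨0, by omega, p, [], v, rfl, .nil _ _, h1 i hi.le 1 (by omega) (by omega)⟩
  rcases (by omega : c ≤ (uu fac t i).length).eq_or_lt with rfl | hc
  · exact ⟨1, by omega, p, [], v, rfl, .nil _ _, h1 (i + 1) hi 0 (by omega) (by omega)⟩
  · exact h2 i hi c e hc

lemma gw_of_seg {a c : ℕ} {p q : Fin n} {v : List Δ} (h : Seg (T b) (t.flatMap fac) a p v c q)
    (hc : c = bb fac t t.length + 1) (hq : q ∈ (T b).final) :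
    (∀ i ≤ t.length, ∀ e < 2, bb fac t i + 1 = a + e → GW (DD T fac) (gr n b t) (i, e, p) v) ∧
    ∀ i < t.length, ∀ c, bb fac t i + c = a → c ≤ (uu fac t i).length + 1 →
      Ex fac t T b i c p v := by
  induction h with
  | nil a p =>
    have h1 : ∀ i ≤ t.length, ∀ e < 2, bb fac t i + 1 = a + e →
        GW (DD T fac) (gr n b t) (i, e, p) [] := fun i hi e he h => by
      have := bb_mono fac hi le_rfl
      obtain rfl : e = 0 := by omega
      exact bridgeR hi le_rfl (by omega) (.cons ((t.length, 0, p), tgt, Sum.inr (true, b, p)) [] []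
        (mem_gr.2 (Or.inr (Or.inl ⟨p, p.2, rfl⟩))) ⟨rfl, p, hq, rfl⟩ .nil)
    refine ⟨h1, ex_of h1 fun i hi c e h => ?_⟩
    have := bb_succ fac hi
    have := bb_mono fac (show i + 1 ≤ t.length from hi) le_rfl
    omega
  | cons x y l p q r a v v' d h1 h2 h3 _ ih =>
    obtain ⟨j, hj, e1, e2⟩ := find_cell fac (x := x) t.length (by
      rw [bb_len]; exact (List.getElem?_eq_some_iff.1 h2).1)
    have e3 := bb_succ fac hj
    obtain ⟨c, rfl⟩ := Nat.exists_eq_add_of_le e1
    have hd : (d : ℤ) = -1 ∨ (d : ℤ) = 0 ∨ (d : ℤ) = 1 := by cases d <;> simp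
    obtain ⟨c', rfl⟩ : ∃ c', y = bb fac t j + c' := ⟨y - bb fac t j, by omega⟩
    obtain ⟨e', he', s, v1, v2, rfl, h4, h5⟩ := (ih hc hq).2 j hj c' rfl (by omega)
    rw [cell fac hj (by omega)] at h2
    have h6 := Seg.cons c c' _ p q s a v v1 d h1 h2 (by omega) h4
    have h7 : ∀ i ≤ t.length, ∀ e < 2, bb fac t i + 1 = bb fac t j + c + 1 + e →
        GW (DD T fac) (gr n b t) (i, e, p) (v ++ (v1 ++ v2)) := fun i hi e he h => by
      rw [← List.append_assoc]
      rcases (by omega : e = 0 ∨ e = 1) with rfl | rfl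
      · have hij : i ≤ j := by
          by_contra h'
          have := bb_mono fac (by omega : j + 1 ≤ i) hi
          omega
        have := bb_mono fac hij hj.le
        obtain rfl : c = 0 := by omega
        exact bridgeR hij hj.le (by omega) (gw_trav (e := 0) hj he he' h6 h5)
      · have hij : j + 1 ≤ i := by
          by_contra h'
          have := bb_mono fac (by omega : i ≤ j) hj.le
          omega
        have := bb_mono fac hij hi
        have e4 : c + 1 = (uu fac t j).length := by omega
        exact bridgeL hij hi (by omega) (gw_trav (e := 1) hj he he' (by simpa [e4] using h6) h5)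
    refine ⟨h7, ex_of h7 fun i hi c'' e h => ?_⟩
    have := bb_succ fac hi
    obtain rfl : i = j := by
      by_contra h'
      rcases Nat.lt_or_gt_of_ne h' with h' | h'
      · have := bb_mono fac (show i + 1 ≤ j from h') hj.le
        omega
      · have := bb_mono fac (show j + 1 ≤ i from h') hi.le
        omega
    obtain rfl : c'' = c := by omega
    exact ⟨e', he', s, v ++ v1, v2, by simp, h6, h5⟩

lemma seg_of_gw {a : Nd} {v : List Δ} (h : GW (DD T fac) (gr n b t) a v) :
    (a = tgt → v = []) ∧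
    (∀ i e (p : Fin n), e < 2 → a = (i, e, p.1) → ∃ q ∈ (T b).final,
      Seg (T b) (t.flatMap fac) (bb fac t i + 1 - e) p v (bb fac t t.length + 1) q) ∧
    (a = src → ∃ p ∈ (T b).init, ∃ q ∈ (T b).final,
      Seg (T b) (t.flatMap fac) 1 p v (bb fac t t.length + 1) q) := by
  induction h with
  | nil =>
    refine ⟨fun _ => rfl, fun i e p he h => ?_, fun h => ?_⟩ <;> simp only [tgt, src,
      Prod.mk.injEq] at h <;> omega
  | cons e v v' he hv _ ih =>
    obtain ⟨p, -, rfl⟩ | ⟨q, -, rfl⟩ | ⟨i, hi, s, r, hs, hr, rfl⟩ := mem_gr.1 he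
    · obtain ⟨rfl, p, hp, rfl⟩ := hv
      refine ⟨fun h => ?_, fun i e p he h => ?_, fun _ => ⟨p, hp, ?_⟩⟩
      · simp [src, tgt] at h
      · simp only [src, Prod.mk.injEq] at h
        omega
      · simpa [bb] using ih.2.1 0 0 p (by omega) rfl
    · obtain ⟨rfl, q, hq, rfl⟩ := hv
      refine ⟨fun h => ?_, fun i e p he h => ?_, fun h => ?_⟩
      · simp [tgt] at h
      · simp only [Prod.mk.injEq] at h
        obtain ⟨rfl, rfl, h⟩ := h
        obtain rfl := Fin.ext h
        rw [ih.1 rfl]
        exact ⟨q, hq, .nil _ _⟩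
      · simp [src] at h
    · obtain ⟨p, q, e1, e2, hv⟩ := hv
      refine ⟨fun h => ?_, fun i' e p' he h => ?_, fun h => ?_⟩
      · simp only [tgt, Prod.mk.injEq] at h
        omega
      · simp only [Prod.mk.injEq] at h
        obtain ⟨rfl, rfl, h⟩ := h
        obtain rfl : p = p' := Fin.ext (e1.symm.trans h)
        obtain ⟨f, hf, H⟩ := ih.2.1 (i + r.1) (1 - r.1) q (by omega) (by rw [e2])
        have h1 := Seg.shift (W := t.flatMap fac) (w := uu fac t i) (bb fac t i)
          (fun x a h => by rw [cell fac hi (List.getElem?_eq_some_iff.1 h).1, h]) hv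
        have := bb_succ fac hi
        refine ⟨f, hf, ?_⟩
        convert Seg.append h1 (by
          convert H using 1
          rcases (by omega : r.1 = 0 ∨ r.1 = 1) with h | h <;> simp [h, this, uu, add_assoc])
          using 1
        rcases (by omega : s.1 = 0 ∨ s.1 = 1) with h | h <;> simp [h, this, uu]
      · simp only [src, Prod.mk.injEq] at h
        omega

lemma gw_iff {u : List ℕ} (h : t.flatMap fac = tape u) :
    {v | GW (DD T fac) (gr n b t) src v} = output (T b) u := by
  ext v
  rw [output, ← h, ← bb_len]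
  constructor
  · intro H
    obtain ⟨p, hp, q, hq, H⟩ := (seg_of_gw H).2.2 rfl
    obtain ⟨a, e, H⟩ := run_of_seg H _ rfl
    obtain rfl : a = 0 := by omega
    exact ⟨p, hp, q, hq, H⟩
  · rintro ⟨p, hp, q, hq, H⟩
    exact GW.cons (src, (0, 0, p), Sum.inr (false, b, p)) [] v (mem_gr.2 (Or.inl ⟨p, p.2, rfl⟩))
      ⟨rfl, p, hp, rfl⟩ ((gw_of_seg (seg_of_run H) rfl hq).1 0 (Nat.zero_le _) 0 (by omega)
        (by simp [bb]))

end Pool.Agent.P.MP_8ee1cf_lc.TW
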