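import Mathlib
import Pool.Agent.P.MP_8ee1cf_lc.TW.Dec

/-! The closure preorder on languages and its bounded generation. -/

namespace Pool.Agent.P.MP_8ee1cf_lc.TW

open Submodule

lemma helly {X K : Type} [Field K] (Φ : List (X → K)) (S : Set X) :
    ∃ d ≤ Φ.length, ∃ a : Fin d → X, (∀ i, a i ∈ S) ∧
      ∀ g ∈ span K {φ | φ ∈ Φ}, (∀ i, g (a i) = 0) → ∀ x ∈ S, g x = 0 := by
  let ev : X → Fin Φ.length → K := fun x i => Φ[i] x
  obtain ⟨f, h1, h2, -⟩ := exists_fun_fin_finrank_span_eq K (ev '' S)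
  choose a ha e using h1
  refine ⟨_, (finrank_le _).trans (by simp), a, ha, fun g hg h0 x hx => ?_⟩
  obtain ⟨L, hL⟩ : ∃ L : (Fin Φ.length → K) →ₗ[K] K, ∀ x, g x = L (ev x) := by
    clear h0
    induction hg using span_induction with
    | mem φ hφ =>
      obtain ⟨i, hi, rfl⟩ := List.getElem_of_mem hφ
      exact ⟨LinearMap.proj ⟨i, hi⟩, fun _ => rfl⟩
    | zero => exact ⟨0, fun _ => rfl⟩
    | add g g' _ _ h h' =>
      obtain ⟨L, hL⟩ := h
      obtain ⟨L', hL'⟩ := h'
      exact ⟨L + L', fun x => by simp [hL, hL']⟩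
    | smul c g _ h =>
      obtain ⟨L, hL⟩ := h
      exact ⟨c • L, fun x => by simp [hL]⟩
  have h3 : span K (Set.range f) ≤ LinearMap.ker L := span_le.2 (by
    rintro _ ⟨i, rfl⟩
    rw [SetLike.mem_coe, LinearMap.mem_ker, ← e, ← hL, h0])
  rw [hL]
  exact h3 (h2.ge (subset_span ⟨x, hx, rfl⟩))

lemma mem_lsum {β : Type} {l : List β} {f : β → Language ℕ} {u : List ℕ} :
    u ∈ (l.map f).sum ↔ ∃ b ∈ l, u ∈ f b := by
  induction l with
  | nil => simp
  | cons a l ih => simp [Language.mem_add, ih]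

section
variable (S : List ℕ → Prop)

/-- In every context, the property on `B` gives the property on `A`. -/
def Le (A B : Language ℕ) : Prop :=
  ∀ u ∈ A, ∀ x z, (∀ f ∈ B, S (x ++ f ++ z)) → S (x ++ u ++ z)

lemma Le.of_sub {A B : Language ℕ} (h : ∀ u ∈ A, u ∈ B) : Le S A B :=
  fun u hu _ _ H => H u (h u hu)

lemma Le.refl (A : Language ℕ) : Le S A A := .of_sub S fun _ h => h

variable {S} in
lemma Le.trans {A B C : Language ℕ} (h : Le S A B) (h' : Le S B C) : Le S A C :=
  fun u hu x z H => h u hu x z fun f hf => h' f hf x z H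

variable {S} in
lemma Le.mul {A B A' B' : Language ℕ} (h : Le S A A') (h' : Le S B B') :
    Le S (A * B) (A' * B') := by
  intro u hu x z H
  obtain ⟨a, ha, b, hb, rfl⟩ := Language.mem_mul.1 hu
  have := h a ha x (b ++ z) fun f hf => by
    simpa using h' b hb (x ++ f) z fun g hg => by
      simpa using H _ (Language.append_mem_mul hf hg)
  simpa using this

lemma Le.sum {β : Type} (l : List β) (f : β → Language ℕ) {Z : Language ℕ}
    (h : ∀ b ∈ l, Le S (f b) Z) : Le S (l.map f).sum Z := fun u hu =>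
  let ⟨b, hb, e⟩ := mem_lsum.1 hu
  h b hb u e

lemma Le.prod {β : Type} (l : List β) {f g : β → Language ℕ} (h : ∀ b, Le S (f b) (g b)) :
    Le S (l.map f).prod (l.map g).prod := by
  induction l with
  | nil => exact .refl S _
  | cons a l ih => simpa only [List.map_cons, List.prod_cons] using (h a).mul ih

end

/-- The word `a` if `P` holds, no word otherwise. -/
def opt (P : Prop) (a : List ℕ) : Language ℕ := {u | P ∧ u = a}

lemma mem_opt {P : Prop} {a u : List ℕ} : u ∈ opt P a ↔ P ∧ u = a := Iff.rfl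

/-- The tape factors of the letters. -/
def fct (x z : List ℕ) (μ : Sym × ℕ → List ℕ) : Let → List (ℕ ⊕ Bool)
  | Sum.inl s => (μ s).map Sum.inl
  | Sum.inr false => Sum.inr false :: x.map Sum.inl
  | Sum.inr true => z.map Sum.inl ++ [Sum.inr true]

lemma fct_ctx (x z : List ℕ) (μ : Sym × ℕ → List ℕ) (w : List (Sym × ℕ)) :
    (ctx w).flatMap (fct x z μ) = tape (x ++ w.flatMap μ ++ z) := by
  simp [ctx, tape, fct, List.flatMap_map, List.map_flatMap]

variable {n : ℕ} (k : ℕ) {Δ : Type} (T : Bool → TwoWay n Δ)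

/-- The values of the variables for two contexts and an assignment of words. -/
noncomputable def val (x z : List ℕ) (μ : Sym × ℕ → List ℕ) (π : Head ⊕ (Sym × ℕ) → Fld Δ) :
    Vr → Fld Δ :=
  nu (enc Δ) (fun c => tr k (DD T (fct x z μ) c)) π

lemma polys_ctx (x z : List ℕ) (μ : Sym × ℕ → List ℕ) (π : Head ⊕ (Sym × ℕ) → Fld Δ)
    (s : List Vr) (w : List (Sym × ℕ)) :
    (∀ P ∈ polys n k s (ctx w), evalP (val k T x z μ π) P = 0) ↔
      ((s.map (val k T x z μ π)).prod ≠ 0 →
        Agree k (T true) (T false) (x ++ w.flatMap μ ++ z)) := by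
  rw [val, polys_iff, gw_iff (fct_ctx x z μ w), gw_iff (fct_ctx x z μ w), Agree]

/-- The variables of the middle letters. -/
def mid : Vr → Bool
  | Sum.inr (Sum.inl (Sum.inl _, _), _) => true
  | _ => false

lemma exists_small (U : Language ℕ) : ∃ (d : ℕ) (m : ℕ → List ℕ), (∀ j < d, m j ∈ U) ∧
    Le (Agree k (T true) (T false)) U
      ((List.range (cc n k)).map fun j => opt (j < d) (m j)).sum := by
  let ν : List ℕ → List ℕ → List ℕ → Vr → Fld Δ := fun x z u => val k T x z (fun _ => u) 0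
  let φ : List Vr → List ℕ → Fld Δ := fun m u =>
    (m.map fun v => if mid v then ν [] [] u v else 1).prod
  let Ps := polys n k [] (ctx [(Sum.inr 0, 0)])
  obtain ⟨d, hd, a, ha, H⟩ := helly (Ps.flatten.map φ) U
  rw [List.length_map] at hd
  refine ⟨d, fun j => if h : j < d then a ⟨j, h⟩ else [], fun j hj => by
    simp only [dif_pos hj]; exact ha _,
    fun u hu x z hF => ?_⟩
  have key : ∀ u, (∀ P ∈ Ps, evalP (ν x z u) P = 0) ↔
      Agree k (T true) (T false) (x ++ u ++ z) := fun u =>
    (polys_ctx k T x z (fun _ => u) 0 [] _).trans (by simp)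
  have hsp : ∀ P : Pol, (∀ m ∈ P, m ∈ Ps.flatten) →
      (fun u => evalP (ν x z u) P) ∈ span (Fld Δ) {f | f ∈ Ps.flatten.map φ} := fun P hP => by
    induction P with
    | nil => exact zero_mem _
    | cons m P ih =>
      have e : (fun u => evalP (ν x z u) (m :: P)) =
          (m.map fun v => if mid v then 1 else ν x z [] v).prod • φ m +
            fun u => evalP (ν x z u) P := by
        funext u
        rw [evalP_cons, Pi.add_apply, Pi.smul_apply, smul_eq_mul, ← List.prod_map_mul]
        congr 2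
        refine List.map_congr_left fun v _ => ?_
        rcases v with (_ | v) | ⟨⟨s | _ | _, v⟩ | ⟨_ | _, v⟩, v'⟩ <;>
          simp [mid, ν, val, nu, DD, fct]
      rw [e]
      exact add_mem (smul_mem _ _ (subset_span (List.mem_map_of_mem (hP m List.mem_cons_self))))
        (ih fun m hm => hP m (List.mem_cons_of_mem _ hm))
  refine (key u).1 fun P hP => H _ (hsp P fun m hm => List.mem_flatten.2 ⟨P, hP, hm⟩)
    (fun i => (key _).2 (hF _ (mem_lsum.2 ⟨i, List.mem_range.2 (i.2.trans_le hd), i.2, by simp⟩))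
      P hP) u hu

end Pool.Agent.P.MP_8ee1cf_lc.TW
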