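import Mathlib
import Pool.Agent.P.MP_8ee1cf_lc.TW.Algo

/-! The search step is primitive recursive. -/

set_option synthInstance.maxSize 4096

namespace Pool.Agent.P.MP_8ee1cf_lc.TW

open Primrec

section
variable {α : Type} [Primcodable α]

lemma prim_prs {n : α → ℕ} (hn : Primrec n) : Primrec fun a => prs (n a) := by
  unfold prs
  refine list_flatMap (const _) ?_
  refine Primrec.to₂ (f := fun r : α × ℕ => (List.range (n r.1)).map fun j => (r.2, j)) ?_
  refine list_map (list_range.comp (hn.comp fst)) ?_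
  exact Primrec.to₂ (f := fun s : (α × ℕ) × ℕ => (s.1.2, s.2)) (pair (snd.comp fst) snd)

lemma prim_trav {n i : α → ℕ} {l : α → Let} (b : Bool) (hn : Primrec n) (hi : Primrec i)
    (hl : Primrec l) : Primrec fun a => trav (n a) b (i a) (l a) := by
  unfold trav
  refine list_flatMap (prim_prs hn) ?_
  refine Primrec.to₂ (f := fun q : α × ℕ × ℕ => (prs (n q.1)).map fun r =>
    (((i q.1 + q.2.1, q.2.1, q.2.2), (i q.1 + r.1, 1 - r.1, r.2),
      Sum.inl (l q.1, b, q.2, r)) : Ed)) ?_
  refine list_map (prim_prs (hn.comp fst)) ?_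
  refine Primrec.to₂ (f := fun q : (α × ℕ × ℕ) × ℕ × ℕ =>
    (((i q.1.1 + q.1.2.1, q.1.2.1, q.1.2.2), (i q.1.1 + q.2.1, 1 - q.2.1, q.2.2),
      Sum.inl (l q.1.1, b, q.1.2, q.2)) : Ed)) ?_
  have h1 : Primrec fun q : (α × ℕ × ℕ) × ℕ × ℕ => i q.1.1 := hi.comp (fst.comp fst)
  have h2 : Primrec fun q : (α × ℕ × ℕ) × ℕ × ℕ => q.1.2 := snd.comp fst
  exact pair (pair (nat_add.comp h1 (fst.comp h2)) (pair (fst.comp h2) (snd.comp h2)))
    (pair (pair (nat_add.comp h1 (fst.comp snd))
      (pair (nat_sub.comp (const 1) (fst.comp snd)) (snd.comp snd)))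
      (sumInl.comp (pair (hl.comp (fst.comp fst)) (pair (const b) (pair h2 snd)))))

lemma prim_gr {n : α → ℕ} {t : α → List Let} (b : Bool) (hn : Primrec n) (ht : Primrec t) :
    Primrec fun a => gr (n a) b (t a) := by
  unfold gr
  refine list_append.comp (list_append.comp (list_map (list_range.comp hn) ?_)
    (list_map (list_range.comp hn) ?_)) (list_flatMap (list_range.comp (list_length.comp ht)) ?_)
  · exact Primrec.to₂ (f := fun r : α × ℕ => ((src, (0, 0, r.2), Sum.inr (false, b, r.2)) : Ed))
      (pair (const _) (pair (pair (const 0) (pair (const 0) snd))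
        (sumInr.comp (pair (const _) (pair (const _) snd)))))
  · exact Primrec.to₂ (f := fun r : α × ℕ =>
        ((((t r.1).length, 0, r.2), tgt, Sum.inr (true, b, r.2)) : Ed))
      (pair (pair (list_length.comp (ht.comp fst)) (pair (const 0) snd))
        (pair (const _) (sumInr.comp (pair (const _) (pair (const _) snd)))))
  · exact Primrec.to₂ (f := fun r : α × ℕ =>
        trav (n r.1) b r.2 ((t r.1).getD r.2 (Sum.inr false)))
      (prim_trav b (hn.comp fst) snd ((list_getD _).comp (ht.comp fst) snd))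

lemma prim_consAll {β : Type} [Primcodable β] {v : α → β} {P : α → List (List β)}
    (hv : Primrec v) (hP : Primrec P) : Primrec fun a => (P a).map fun m => v a :: m :=
  list_map hP (Primrec.to₂ (f := fun r : α × List β => v r.1 :: r.2)
    (list_cons.comp (hv.comp fst) snd))

lemma prim_ext {e : α → Ed} {y : α → Wk} {j : α → ℕ} (he : Primrec e) (hy : Primrec y)
    (hj : Primrec j) : Primrec fun a => ext (e a) (y a) (j a) := by
  unfold ext
  have hv : ∀ i : ℕ, Primrec fun a => (Sum.inr ((e a).2.2, j a, i) : Vr) := fun i =>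
    sumInr.comp (pair (snd.comp (snd.comp he)) (pair hj (const i)))
  exact pair (fst.comp he) (pair (list_cons.comp (hv 0) (fst.comp (snd.comp hy)))
    (list_cons.comp (list_cons.comp (hv 1) (fst.comp (snd.comp hy)))
      (prim_consAll (hv 2) (snd.comp (snd.comp hy)))))

lemma prim_stp {g : α → List Ed} {k : α → ℕ} {A : α → List Wk} (hg : Primrec g) (hk : Primrec k)
    (hA : Primrec A) : Primrec fun a => stp (g a) (k a) (A a) := by
  unfold stp
  refine list_cons.comp (const _) (list_flatMap hA ?_)
  refine Primrec.to₂ (f := fun r : α × Wk => (g r.1).flatMap fun e =>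
    if e.2.1 = r.2.1 then (List.range (k r.1)).map (ext e r.2) else []) ?_
  refine list_flatMap (hg.comp fst) ?_
  refine Primrec.to₂ (f := fun s : (α × Wk) × Ed =>
    if s.2.2.1 = s.1.2.1 then (List.range (k s.1.1)).map (ext s.2 s.1.2) else []) ?_
  refine Primrec.ite (Primrec.eq.comp (fst.comp (snd.comp snd)) (fst.comp (snd.comp fst)))
    (list_map (list_range.comp (hk.comp (fst.comp fst))) ?_) (const _)
  exact Primrec.to₂ (f := fun u : ((α × Wk) × Ed) × ℕ => ext u.1.2 u.1.1.2 u.2)
    (prim_ext (snd.comp fst) (snd.comp (fst.comp fst)) snd)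

lemma prim_vals {g : α → List Ed} {k : α → ℕ} (hg : Primrec g) (hk : Primrec k) :
    Primrec fun a => vals (g a) (k a) := by
  unfold vals walks bnd
  refine list_flatMap (nat_iterate (h := fun a (A : List Wk) => stp (g a) (k a + 1) A)
    (succ.comp (nat_mul.comp (succ.comp (list_length.comp hg)) (succ.comp hk))) (const []) ?_) ?_
  · exact Primrec.to₂ (f := fun r : α × List Wk => stp (g r.1) (k r.1 + 1) r.2)
      (prim_stp (hg.comp fst) (succ.comp (hk.comp fst)) snd)
  · exact Primrec.to₂ (f := fun r : α × Wk => if r.2.1 = src then [r.2.2.2] else [])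
      (Primrec.ite (Primrec.eq.comp (fst.comp snd) (const _))
        (list_cons.comp (snd.comp (snd.comp snd)) (const [])) (const _))

lemma prim_dif {V W : α → Pol} (hV : Primrec V) (hW : Primrec W) :
    Primrec fun a => dif (V a) (W a) := by
  unfold dif
  exact list_append.comp hV (prim_consAll (const _) hW)

lemma prim_side {A B : α → List Pol} (hA : Primrec A) (hB : Primrec B) :
    Primrec fun a => side (A a) (B a) := by
  unfold side
  refine list_map hA ?_
  refine Primrec.to₂ (f := fun r : α × Pol => osub (dif r.2) ([] :: B r.1)) ?_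
  refine prim_osub (ch := fun (r : α × Pol) (W : Pol) => dif r.2 W) ?_
    (list_cons.comp (const _) (hB.comp fst))
  exact Primrec.to₂ (f := fun s : (α × Pol) × Pol => dif s.1.2 s.2)
    (prim_dif (snd.comp fst) snd)

lemma prim_vand : Primrec vand := by
  unfold vand
  refine list_foldr (h := fun (_ : List Pol) (p : Pol × List Pol × List Pol) =>
    (p.1 :: p.2.1, p.2.1.map (dif p.1) ++ p.2.2)) Primrec.id (const _) ?_
  refine Primrec.to₂ (f := fun q : List Pol × Pol × List Pol × List Pol =>
    (q.2.1 :: q.2.2.1, q.2.2.1.map (dif q.2.1) ++ q.2.2.2)) ?_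
  refine pair (list_cons.comp (fst.comp snd) (fst.comp (snd.comp snd)))
    (list_append.comp (list_map (fst.comp (snd.comp snd)) ?_) (snd.comp (snd.comp snd)))
  exact Primrec.to₂ (f := fun s : (List Pol × Pol × List Pol × List Pol) × Pol => dif s.1.2.1 s.2)
    (prim_dif (fst.comp (snd.comp fst)) snd)

lemma prim_few {k : α → ℕ} {A : α → List Pol} (hk : Primrec k) (hA : Primrec A) :
    Primrec fun a => few (k a) (A a) := by
  unfold few
  refine list_map (prim_osub (ch := fun (a : α) (_ : ℕ) => (A a).map fun V => [V]) ?_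
    (list_range.comp (succ.comp hk))) ?_
  · refine Primrec.to₂ (f := fun r : α × ℕ => (A r.1).map fun V => [V]) ?_
    exact list_map (hA.comp fst) (Primrec.to₂ (f := fun s : (α × ℕ) × Pol => [s.2])
      (list_cons.comp snd (const [])))
  · exact Primrec.to₂ (f := fun r : α × List Pol => osub (fun V => V) (vand r.2).2)
      (prim_osub (ch := fun (_ : α × List Pol) (V : Pol) => V) Primrec₂.right
        (snd.comp (prim_vand.comp snd)))

lemma prim_polys {n k : α → ℕ} {s : α → List Vr} {t : α → List Let} (hn : Primrec n)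
    (hk : Primrec k) (hs : Primrec s) (ht : Primrec t) :
    Primrec fun a => polys (n a) (k a) (s a) (t a) := by
  unfold polys agr
  have hv := fun b => prim_vals (prim_gr b hn ht) hk
  refine list_map (list_append.comp (list_append.comp (prim_side (hv true) (hv false))
    (prim_side (hv false) (hv true))) (prim_few hk (hv true))) ?_
  refine Primrec.to₂ (f := fun r : α × Pol => r.2.map fun m => s r.1 ++ m) (list_map snd ?_)
  exact Primrec.to₂ (f := fun u : (α × Pol) × List Vr => s u.1.1 ++ u.2)
    (list_append.comp (hs.comp (fst.comp fst)) snd)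

lemma prim_ctx : Primrec ctx := by
  unfold ctx
  refine list_cons.comp (const _) (list_append.comp (list_map Primrec.id ?_) (const _))
  exact Primrec.to₂ (f := fun s : List (Sym × ℕ) × (Sym × ℕ) => (Sum.inl s.2 : Let))
    (sumInl.comp snd)

lemma prim_cc {n k : α → ℕ} (hn : Primrec n) (hk : Primrec k) :
    Primrec fun a => cc (n a) (k a) :=
  list_length.comp (list_flatten.comp (prim_polys hn hk (const _) (const _)))

lemma prim_cop {c : α → ℕ} (hc : Primrec c) : Primrec₂ fun a x => cop (c a) x := by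
  unfold cop
  refine Primrec.to₂ (f := fun q : α × Sym => (Sum.casesOn q.2 (fun t => [[(Sum.inl t, 0)]])
    (fun B => (List.range (c q.1)).map fun j => [(Sum.inr B, j)]) : List (List (Sym × ℕ)))) ?_
  refine sumCasesOn (g := fun (_ : α × Sym) (t : ℕ) =>
      ([[(Sum.inl t, 0)]] : List (List (Sym × ℕ))))
    (h := fun (q : α × Sym) (B : ℕ) =>
      ((List.range (c q.1)).map fun j => [(Sum.inr B, j)] : List (List (Sym × ℕ)))) snd ?_ ?_
  · exact Primrec.to₂ (f := fun r : (α × Sym) × ℕ =>
        ([[(Sum.inl r.2, 0)]] : List (List (Sym × ℕ))))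
      (list_cons.comp (list_cons.comp (pair (sumInl.comp snd) (const _)) (const [])) (const []))
  · refine Primrec.to₂ (f := fun r : (α × Sym) × ℕ =>
      ((List.range (c r.1.1)).map fun j => [(Sum.inr r.2, j)] : List (List (Sym × ℕ)))) ?_
    refine list_map (list_range.comp (hc.comp (fst.comp fst))) ?_
    exact Primrec.to₂ (f := fun s : ((α × Sym) × ℕ) × ℕ =>
        ([(Sum.inr s.1.2, s.2)] : List (Sym × ℕ)))
      (list_cons.comp (pair (sumInr.comp (snd.comp fst)) snd) (const []))

lemma prim_swi {h : α → Head} {w : α → List (Sym × ℕ)} (hh : Primrec h) (hw : Primrec w) :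
    Primrec fun a => swi (h a) (w a) := by
  unfold swi
  refine list_cons.comp (sumInl.comp (option_some.comp (sumInl.comp hh))) (list_map hw ?_)
  exact Primrec.to₂ (f := fun r : α × Sym × ℕ => (Sum.inl (some (Sum.inr r.2)) : Vr))
    (sumInl.comp (option_some.comp (sumInr.comp snd)))

lemma prim_gns {n k : α → ℕ} {T : α → Tab} (hn : Primrec n) (hk : Primrec k) (hT : Primrec T) :
    Primrec fun a => gns (n a) (k a) (T a) := by
  unfold gns
  refine list_flatMap hT ?_
  refine Primrec.to₂ (f := fun r : α × (Head × List Sym) =>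
    (osub (cop (cc (n r.1) (k r.1))) r.2.2).flatMap fun w =>
      polys (n r.1) (k r.1) (swi r.2.1 w) (ctx w)) ?_
  refine list_flatMap (prim_osub (ch := fun (r : α × (Head × List Sym)) x =>
    cop (cc (n r.1) (k r.1)) x) (prim_cop (prim_cc (hn.comp fst) (hk.comp fst)))
      (snd.comp snd)) ?_
  exact Primrec.to₂ (f := fun s : (α × (Head × List Sym)) × List (Sym × ℕ) =>
      polys (n s.1.1) (k s.1.1) (swi s.1.2.1 s.2) (ctx s.2))
    (prim_polys (hn.comp (fst.comp fst)) (hk.comp (fst.comp fst))
      (prim_swi (fst.comp (snd.comp fst)) snd) (prim_ctx.comp snd))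

lemma prim_chk {n k : α → ℕ} {G : α → Grammar} {T : α → Tab} {C : α → List Ct}
    (hn : Primrec n) (hk : Primrec k) (hG : Primrec G) (hT : Primrec T) (hC : Primrec C) :
    PrimrecPred fun a => Chk (n a) (k a) (G a) (T a) (C a) := by
  unfold Chk
  exact prim_check_gen (prim_gns hn hk hT) (prim_gns hn hk (prim_phi.comp hG hT)) hC

end

lemma prim_srch : Primrec₂ srch := by
  unfold srch
  refine Primrec.to₂ (f := fun q : (Grammar × ℕ × ℕ) × ℕ =>
    (Encodable.decode (α := ℕ × List Ct) q.2).bind fun nC =>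
      if Chk q.1.2.1 q.1.2.2 q.1.1 (tab q.1.1 nC.1) nC.2 then
        some (outp q.1.1 (tab q.1.1 nC.1)) else none) ?_
  refine option_bind (Primrec.decode.comp snd) ?_
  refine Primrec.to₂ (f := fun r : ((Grammar × ℕ × ℕ) × ℕ) × (ℕ × List Ct) =>
    if Chk r.1.1.2.1 r.1.1.2.2 r.1.1.1 (tab r.1.1.1 r.2.1) r.2.2 then
      some (outp r.1.1.1 (tab r.1.1.1 r.2.1)) else none) ?_
  have hG : Primrec fun r : ((Grammar × ℕ × ℕ) × ℕ) × (ℕ × List Ct) => r.1.1.1 :=
    fst.comp (fst.comp fst)
  have ht : Primrec fun r : ((Grammar × ℕ × ℕ) × ℕ) × (ℕ × List Ct) => tab r.1.1.1 r.2.1 :=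
    prim_tab.comp hG (fst.comp snd)
  exact Primrec.ite (prim_chk (fst.comp (snd.comp (fst.comp fst)))
      (snd.comp (snd.comp (fst.comp fst))) hG ht (snd.comp snd))
    (option_some.comp (prim_outp.comp hG ht)) (const none)

end Pool.Agent.P.MP_8ee1cf_lc.TW
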