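import Mathlib
import Pool.Agent.P.MP_8ee1cf_lc.TW.Link

/-! Soundness of the closure check. -/

namespace Pool.Agent.P.MP_8ee1cf_lc.TW

/-- The language of a letter. -/
def symL (U : ℕ → Language ℕ) (x : Sym) : Language ℕ := Sum.elim (fun t => {[t]}) U x

/-- The language of a word. -/
def wordL (U : ℕ → Language ℕ) (w : List Sym) : Language ℕ := (w.map (symL U)).prod

/-- The language of a list of words. -/
def setL (U : ℕ → Language ℕ) (ws : List (List Sym)) : Language ℕ := (ws.map (wordL U)).sum

lemma setL_osub (U : ℕ → Language ℕ) (T : Tab) (o : Option ℕ) (α : List Sym) :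
    setL U (osub (chT T o) α) = wordL (fun B => setL U (getT T (o, B))) α := by
  unfold setL wordL
  rw [osub_sem]
  congr 1
  apply List.map_congr_left
  intro x _
  cases x with
  | inl t => simp [chT, symL]
  | inr B => simp [chT, symL]

lemma mem_prod_single (w u : List ℕ) :
    u ∈ (w.map fun t => ({[t]} : Language ℕ)).prod ↔ u = w := by
  induction w generalizing u with
  | nil => simp
  | cons a w ih =>
    rw [List.map_cons, List.prod_cons, Language.mem_mul]
    constructor
    · rintro ⟨_, rfl, b, hb, rfl⟩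
      rw [(ih b).1 hb]
      rfl
    · rintro rfl
      exact ⟨[a], rfl, w, (ih w).2 rfl, rfl⟩

lemma prod_mono {β : Type} (l : List β) {f g : β → Language ℕ} (h : ∀ b, ∀ u ∈ f b, u ∈ g b) :
    ∀ u ∈ (l.map f).prod, u ∈ (l.map g).prod := by
  induction l with
  | nil => exact fun _ h => h
  | cons a l ih =>
    intro u hu
    rw [List.map_cons, List.prod_cons] at hu ⊢
    obtain ⟨x, hx, y, hy, rfl⟩ := Language.mem_mul.1 hu
    exact Language.append_mem_mul (h a x hx) (ih y hy)

lemma eval_toMv {V K : Type} [CommRing K] (ν : V → K) (p : List (List V)) :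
    MvPolynomial.eval₂Hom (Int.castRingHom K) ν (toMv p) = evalP ν p := by
  simpa [toMv] using map_evalP (MvPolynomial.eval₂Hom (Int.castRingHom K) ν) MvPolynomial.X p

lemma mem_prod_opt {β : Type} (P : β → Prop) (μ : β → List ℕ) (w : List β) (u : List ℕ) :
    u ∈ (w.map fun s => opt (P s) (μ s)).prod ↔
      (∀ s ∈ w, P s) ∧ u = w.flatMap μ := by
  induction w generalizing u with
  | nil => simp
  | cons a w ih =>
    rw [List.map_cons, List.prod_cons, Language.mem_mul, List.forall_mem_cons, List.flatMap_cons]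
    constructor
    · rintro ⟨_, ⟨h, rfl⟩, b, hb, rfl⟩
      obtain ⟨h', rfl⟩ := (ih b).1 hb
      exact ⟨⟨h, h'⟩, rfl⟩
    · rintro ⟨⟨h, h'⟩, rfl⟩
      exact ⟨_, ⟨h, rfl⟩, _, (ih _).2 ⟨h', rfl⟩, rfl⟩

section
variable {n : ℕ} (k : ℕ) {Δ : Type} (A : Bool → TwoWay n Δ)

lemma exists_mu (U : ℕ → Language ℕ) : ∃ (P : Sym × ℕ → Prop) (μ : Sym × ℕ → List ℕ),
    ∀ w : List Sym,
      Le (Agree k (A true) (A false)) (wordL U w) ((osub (cop (cc n k)) w).map fun w' =>
        (w'.map fun s => opt (P s) (μ s)).prod).sum ∧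
      ∀ u ∈ ((osub (cop (cc n k)) w).map fun w' =>
        (w'.map fun s => opt (P s) (μ s)).prod).sum, u ∈ wordL U w := by
  choose d m h2 h3 using fun B => exists_small k A (U B)
  refine ⟨fun s => Sum.elim (fun _ => True) (fun B => s.2 < d B) s.1,
    fun s => Sum.elim (fun t => [t]) (fun B => m B s.2) s.1, fun w => ?_⟩
  rw [osub_sem]
  refine ⟨Le.prod _ w ?_, prod_mono w ?_⟩
  · rintro (t | B)
    · exact Le.of_sub _ fun u hu => mem_lsum.2 ⟨_, List.mem_singleton_self _,
        (mem_prod_opt _ _ _ _).2 ⟨by simp, by simpa using (show u = [t] from hu)⟩⟩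
    · simpa [cop, symL, Function.comp_def] using h3 B
  · rintro (t | B) u hu <;> obtain ⟨_, hb, e⟩ := mem_lsum.1 hu
    · rw [List.mem_singleton.1 hb, mem_prod_opt] at e
      exact (by simpa using e.2 : u = [t])
    · obtain ⟨j, -, rfl⟩ := List.mem_map.1 hb
      rw [mem_prod_opt] at e
      rw [e.2]
      simpa [symL] using h2 B j (by simpa using e.1)

/-- The semantic consequence of ideal membership. -/
lemma closed_le {T T' : Tab}
    (hcl : ∀ p ∈ gns n k T', toMv p ∈ Ideal.span (toMv '' {g | g ∈ gns n k T}))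
    (U : ℕ → Language ℕ) {h : Head} {w : List Sym} (hw : (h, w) ∈ T') :
    Le (Agree k (A true) (A false)) (wordL U w) (setL U (getT T h)) := by
  classical
  obtain ⟨P, μ, H⟩ := exists_mu k A U
  refine (H w).1.trans (Le.sum _ _ _ fun w' hw' u hu x z hF => ?_)
  let π : Head ⊕ (Sym × ℕ) → Fld Δ :=
    Sum.elim (fun h' => if h' = h then 1 else 0) fun s => if P s then 1 else 0
  have hs : ∀ h' t, ((swi h' t).map (val k A x z μ π)).prod ≠ 0 ↔ h' = h ∧ ∀ s ∈ t, P s := by
    intro h' t
    simp only [swi, ne_eq, List.prod_eq_zero_iff, List.map_cons, List.mem_cons, List.map_map,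
      List.mem_map, Function.comp, val, nu, π, Sum.elim_inl, Sum.elim_inr, not_or, not_exists,
      not_and, eq_comm (a := (0 : Fld Δ)), ite_eq_right_iff, one_ne_zero, imp_false, not_not]
  have hker : Ideal.span (toMv '' {g | g ∈ gns n k T}) ≤ RingHom.ker
      (MvPolynomial.eval₂Hom (Int.castRingHom (Fld Δ)) (val k A x z μ π)) := by
    rw [Ideal.span_le]
    rintro _ ⟨g, hg, rfl⟩
    obtain ⟨e, he, t', ht', hp⟩ := mem_gns.1 hg
    rw [SetLike.mem_coe, RingHom.mem_ker, eval_toMv]
    refine (polys_ctx k A x z μ π _ t').2 (fun hh => hF _ ?_) g hp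
    obtain ⟨e1, e2⟩ := (hs _ _).1 hh
    exact mem_lsum.2 ⟨e.2, mem_getT.2 (by rw [← e1]; exact he),
      (H e.2).2 _ (mem_lsum.2 ⟨t', ht', (mem_prod_opt _ _ _ _).2 ⟨e2, rfl⟩⟩)⟩
  obtain ⟨e1, e2⟩ := (mem_prod_opt _ _ _ _).1 hu
  rw [e2]
  refine (polys_ctx k A x z μ π (swi h w') w').1 (fun Q hQ => ?_) ((hs _ _).2 ⟨rfl, e1⟩)
  have := hker (hcl _ (mem_gns.2 ⟨(h, w), hw, w', hw', hQ⟩))
  rwa [RingHom.mem_ker, eval_toMv] at this

end

variable (S : List ℕ → Prop)

/-- The languages attached to a stack. -/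
def stackL (G : Grammar) (T : Tab) : List ℕ → ℕ → Language ℕ
  | [] => fun A => setL (fun _ => 0) (getT T (none, A))
  | f :: σ => fun A => if some f ∈ idx G then setL (stackL G T σ) (getT T (some f, A)) else ⊤

/-- The language of a sentential form. -/
def formL (G : Grammar) (T : Tab) (γ : Form) : Language ℕ :=
  (γ.map (Sum.elim (fun t => {[t]}) fun p => stackL G T p.2 p.1)).prod

lemma formL_append (G : Grammar) (T : Tab) (u v : Form) :
    formL G T (u ++ v) = formL G T u * formL G T v := by
  simp [formL]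

lemma formL_single (G : Grammar) (T : Tab) (A : ℕ) (σ : List ℕ) :
    formL G T [Sum.inr (A, σ)] = stackL G T σ A := by
  simp [formL]

lemma formL_attach (G : Grammar) (T : Tab) (σ : List ℕ) (α : List Sym) :
    formL G T (attach σ α) = wordL (stackL G T σ) α := by
  unfold formL attach wordL
  rw [List.map_map]
  congr 1
  apply List.map_congr_left
  intro x _
  cases x <;> simp [symL]

lemma stackL_cases (G : Grammar) (T : Tab) (σ : List ℕ) :
    (∀ A, stackL G T σ A = ⊤) ∨ ∃ o ∈ idx G, ∃ U,
      stackL G T σ = fun A => setL U (getT T (o, A)) := by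
  cases σ with
  | nil => exact Or.inr ⟨none, List.mem_cons_self, _, rfl⟩
  | cons f σ =>
    by_cases h : some f ∈ idx G
    · refine Or.inr ⟨some f, h, stackL G T σ, ?_⟩
      funext A
      simp [stackL, h]
    · left
      intro A
      simp [stackL, h]

lemma Le.top (A : Language ℕ) : Le S A ⊤ := .of_sub S fun _ _ => trivial

lemma step_Le {G : Grammar} {T : Tab}
    (hcl : ∀ (U : ℕ → Language ℕ) {h : Head} {w : List Sym}, (h, w) ∈ phi G T →
      Le S (wordL U w) (setL U (getT T h)))
    {γ γ' : Form} (h : Step G γ γ') : Le S (formL G T γ') (formL G T γ) := by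
  cases h with
  | plain u v A σ α hr =>
    simp only [formL_append, formL_single, formL_attach]
    refine ((Le.refl S _).mul ?_).mul (Le.refl S _)
    rcases stackL_cases G T σ with h | ⟨o, ho, U, hU⟩
    · rw [h]; exact Le.top S _
    · rw [hU, ← setL_osub]
      refine Le.sum S _ _ fun w hw => hcl U ?_
      simp only [phi, List.mem_append]
      left; left
      simp only [phi1, List.mem_flatMap, List.mem_map]
      exact ⟨o, ho, (A, α), hr, w, hw, rfl⟩
  | push u v A B f σ hr =>
    simp only [formL_append, formL_single]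
    refine ((Le.refl S _).mul ?_).mul (Le.refl S _)
    have hf : some f ∈ idx G :=
      List.mem_cons_of_mem _ (List.mem_map.2 ⟨(A, B, f), hr, rfl⟩)
    rcases stackL_cases G T σ with h | ⟨o, ho, U, hU⟩
    · rw [h]; exact Le.top S _
    · simp only [stackL, if_pos hf]
      rw [hU]
      refine Le.sum S _ _ fun x hx => ?_
      rw [← setL_osub]
      refine Le.sum S _ _ fun w hw => hcl U ?_
      simp only [phi, List.mem_append]
      left; right
      simp only [phi2, List.mem_flatMap, List.mem_map]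
      exact ⟨o, ho, (A, B, f), hr, x, hx, w, hw, rfl⟩
  | pop u v A f σ α hr =>
    simp only [formL_append, formL_single, formL_attach]
    refine ((Le.refl S _).mul ?_).mul (Le.refl S _)
    simp only [stackL]
    split_ifs with hf
    · refine hcl _ ?_
      simp only [phi, List.mem_append]
      right
      simp only [phi3, List.mem_map]
      exact ⟨(A, f, α), hr, rfl⟩
    · exact Le.top S _

lemma language_ok {G : Grammar} {m : ℕ}
    (hcl : ∀ (U : ℕ → Language ℕ) {h : Head} {w : List Sym}, (h, w) ∈ phi G (tab G m) →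
      Le S (wordL U w) (setL U (getT (tab G m) h)))
    (hF : ∀ w ∈ outp G (tab G m), S w) {w : List ℕ} (hw : w ∈ language G) : S w := by
  have key : ∀ γ, Relation.ReflTransGen (Step G) [Sum.inr (G.1, [])] γ →
      Le S (formL G (tab G m) γ) (formL G (tab G m) [Sum.inr (G.1, [])]) := by
    intro γ h
    induction h with
    | refl => exact Le.refl S _
    | tail _ hs ih => exact (step_Le S hcl hs).trans ih
  have h1 := key _ hw w (by
    unfold formL
    rw [List.map_map]
    exact (mem_prod_single w w).2 rfl) [] []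
  simp only [List.nil_append, List.append_nil, formL_single] at h1
  refine h1 fun f hf => ?_
  obtain ⟨x, hx, e⟩ := mem_lsum.1 hf
  have hv := (valid_tab G m _ (mem_getT.1 hx)).2 rfl
  obtain ⟨y, rfl⟩ : ∃ y : List ℕ, x = y.map Sum.inl := by
    refine ⟨x.map (Sum.elim id id), ?_⟩
    rw [List.map_map]
    conv_lhs => rw [← List.map_id x]
    apply List.map_congr_left
    intro z hz
    obtain ⟨t, rfl⟩ := hv z hz
    rfl
  unfold wordL at e
  rw [List.map_map] at e
  rw [(mem_prod_single y f).1 e]
  exact hF y (mem_outp.2 hx)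

end Pool.Agent.P.MP_8ee1cf_lc.TW
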