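import Mathlib
import Pool.Agent.P.MP_8ee1cf_lc.TW.Sound
import Pool.Agent.P.MP_8ee1cf_lc.TW.Prim

/-! Effective test sets for two-way transducers on indexed languages. -/

set_option synthInstance.maxSize 4096

namespace Pool.Agent.P.MP_8ee1cf_lc.TW

section
variable {X : Set Vr}

/-- All variables of a polynomial lie in a set. -/
def In (X : Set Vr) (P : Pol) : Prop := ∀ m ∈ P, ∀ v ∈ m, v ∈ X

lemma walks_in {g : List Ed} {k N : ℕ}
    (hg : ∀ e ∈ g, ∀ j < k, ∀ i < 3, (Sum.inr (e.2.2, j, i) : Vr) ∈ X) :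
    ∀ y ∈ walks g k N, (∀ v ∈ y.2.1, v ∈ X) ∧ In X y.2.2 := by
  induction N with
  | zero => simp [walks]
  | succ N ih =>
    intro y hy
    obtain rfl | ⟨z, hz, e, he, -, j, hj, rfl⟩ := mem_walks.1 hy
    · simp [In]
    obtain ⟨h1, h2⟩ := ih z hz
    have hv := hg e he j hj
    simp only [In, ext, List.forall_mem_cons, List.forall_mem_map]
    exact ⟨⟨hv 0 (by omega), h1⟩, ⟨hv 1 (by omega), h1⟩, fun m hm => ⟨hv 2 (by omega), h2 m hm⟩⟩

lemma In.osub {β : Type} {ch : β → Pol} {α : List β} (h : ∀ x ∈ α, In X (ch x)) :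
    In X (osub ch α) := fun _ hm v hv =>
  let ⟨x, hx, u, hu, e⟩ := osub_letters hm v hv
  h x hx u hu v e

variable (h0 : Sum.inl none ∈ X)
include h0

lemma In.dif {V W : Pol} (hV : In X V) (hW : In X W) : In X (dif V W) := by
  simp only [In, TW.dif, List.forall_mem_append, List.forall_mem_map, List.forall_mem_cons]
  exact ⟨hV, fun m hm => ⟨h0, hW m hm⟩⟩

lemma side_in {A B : List Pol} (hA : ∀ V ∈ A, In X V) (hB : ∀ V ∈ B, In X V) :
    ∀ P ∈ side A B, In X P := by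
  rw [side, List.forall_mem_map]
  refine fun V hV => In.osub ?_
  rw [List.forall_mem_cons]
  exact ⟨(hA V hV).dif h0 (by simp [In]), fun W hW => (hA V hV).dif h0 (hB W hW)⟩

lemma vand_in {ys : List Pol} (h : ∀ V ∈ ys, In X V) : ∀ P ∈ (vand ys).2, In X P := by
  induction ys with
  | nil => simp [vand]
  | cons V ys ih =>
    rw [List.forall_mem_cons] at h
    rw [vand_cons, List.forall_mem_append, List.forall_mem_map, List.forall_mem_append]
    exact ⟨⟨fun W hW => h.1.dif h0 (h.2 W hW), by simpa using h.1.dif h0 (by simp [In])⟩, ih h.2⟩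

lemma agr_in {k : ℕ} {A B : List Pol} (hA : ∀ V ∈ A, In X V) (hB : ∀ V ∈ B, In X V) :
    ∀ P ∈ agr k A B, In X P := by
  rw [agr, List.forall_mem_append, List.forall_mem_append, few, List.forall_mem_map]
  exact ⟨⟨side_in h0 hA hB, side_in h0 hB hA⟩, fun ys hy =>
    In.osub (vand_in h0 fun V hV => hA V (((mem_tup _ _ _).1 hy).2 V hV))⟩

end

/-- The copies that can occur. -/
def copS (c : ℕ) (G : Grammar) : Set (Sym × ℕ) := {x | x ∈ lets G} ×ˢ Set.Iic c

/-- The edge labels that can occur. -/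
def keyS (n c : ℕ) (G : Grammar) : Set Key :=
  Sum.inl '' ((Sum.inl '' copS c G ∪ Set.range Sum.inr) ×ˢ Set.univ ×ˢ
    (Set.Iio 2 ×ˢ Set.Iio n) ×ˢ (Set.Iio 2 ×ˢ Set.Iio n)) ∪
      Sum.inr '' (Set.univ ×ˢ Set.univ ×ˢ Set.Iio n)

/-- The variables that can occur. -/
def vrs (n k : ℕ) (G : Grammar) : Set Vr :=
  Sum.inl '' insert none
      (some '' (Sum.inl '' {h | h ∈ heads G} ∪ Sum.inr '' copS (cc n k) G)) ∪
    Sum.inr '' (keyS n (cc n k) G ×ˢ Set.Iio (k + 1) ×ˢ Set.Iio 3)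

lemma vrs_finite (n k : ℕ) (G : Grammar) : (vrs n k G).Finite := by
  have h1 : (copS (cc n k) G).Finite := (List.finite_toSet _).prod (Set.finite_Iic _)
  have h2 : (Set.Iio 2 ×ˢ Set.Iio n).Finite := (Set.finite_Iio _).prod (Set.finite_Iio _)
  exact ((((((List.finite_toSet _).image _).union (h1.image _)).image _).insert _).image _).union
    (((((((h1.image _).union (Set.finite_range _)).prod
      (Set.finite_univ.prod (h2.prod h2))).image _).union
        ((Set.finite_univ.prod (Set.finite_univ.prod (Set.finite_Iio _))).image _)).prod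
          ((Set.finite_Iio _).prod (Set.finite_Iio _))).image _)

lemma gns_mem_adjoin {n k : ℕ} {G : Grammar} {T : Tab} (hT : ∀ e ∈ T, Good G e) {p : Pol}
    (hp : p ∈ gns n k T) :
    toMv p ∈ Algebra.adjoin ℤ (MvPolynomial.X '' vrs n k G : Set (MvPolynomial Vr ℤ)) := by
  obtain ⟨e, he, w, hw, hp⟩ := mem_gns.1 hp
  have hc : ∀ y ∈ w, y ∈ copS (cc n k) G := fun y hy => by
    obtain ⟨x, hx, u, hu, hyu⟩ := osub_letters hw y hy
    cases x with
    | inl t =>
      simp only [cop, List.mem_singleton] at hu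
      subst hu
      rw [List.mem_singleton.1 hyu]
      exact ⟨(hT e he).2 _ hx, Nat.zero_le _⟩
    | inr B =>
      simp only [cop, List.mem_map, List.mem_range] at hu
      obtain ⟨j, hj, rfl⟩ := hu
      rw [List.mem_singleton.1 hyu]
      exact ⟨(hT e he).2 _ hx, hj.le⟩
  have ht : ∀ l ∈ ctx w, l ∈ Sum.inl '' copS (cc n k) G ∪ Set.range Sum.inr := by
    simp only [ctx, List.forall_mem_cons, List.forall_mem_append, List.forall_mem_map]
    exact ⟨Or.inr ⟨_, rfl⟩, fun y hy => Or.inl ⟨y, hc y hy, rfl⟩, Or.inr ⟨_, rfl⟩, by simp⟩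
  have hv : ∀ b, ∀ V ∈ vals (gr n b (ctx w)) k, In (vrs n k G) V := fun b V hV => by
    obtain ⟨y, hy, -, rfl⟩ := mem_vals.1 hV
    refine (walks_in (fun e he j hj i hi => Or.inr ⟨(e.2.2, j, i), ⟨?_, hj, hi⟩, rfl⟩) y hy).2
    obtain ⟨p, hp, rfl⟩ | ⟨p, hp, rfl⟩ | ⟨i, hi, s, r, hs, hr, rfl⟩ := mem_gr.1 he
    · exact Or.inr ⟨(false, b, p), ⟨trivial, trivial, hp⟩, rfl⟩
    · exact Or.inr ⟨(true, b, p), ⟨trivial, trivial, hp⟩, rfl⟩
    · refine Or.inl ⟨(_, b, s, r), ⟨ht _ ?_, trivial, hs, hr⟩, rfl⟩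
      rw [List.getD_eq_getElem _ _ hi]
      exact List.getElem_mem hi
  obtain ⟨P, hP, rfl⟩ := List.mem_map.1 hp
  refine toMv_mem_adjoin _ _ ?_
  simp only [List.forall_mem_map, List.forall_mem_append, swi, List.forall_mem_cons]
  exact fun m hm => ⟨⟨Or.inl ⟨_, Or.inr ⟨_, Or.inl ⟨_, (hT e he).1, rfl⟩, rfl⟩, rfl⟩, fun y hy =>
    Or.inl ⟨_, Or.inr ⟨_, Or.inr ⟨_, hc y hy, rfl⟩, rfl⟩, rfl⟩⟩,
      agr_in (Or.inl ⟨_, Or.inl rfl, rfl⟩) (hv true) (hv false) P hP m hm⟩

lemma gns_mono {n k : ℕ} {T T' : Tab} (h : ∀ e ∈ T, e ∈ T') {p : Pol} (hp : p ∈ gns n k T) :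
    p ∈ gns n k T' := by
  obtain ⟨e, he, H⟩ := mem_gns.1 hp
  exact mem_gns.2 ⟨e, h e he, H⟩

lemma exists_chk (n k : ℕ) (G : Grammar) : ∃ (m : ℕ) (C : List Ct), Chk n k G (tab G m) C := by
  obtain ⟨m, hm⟩ := exists_stable (vrs n k G) (vrs_finite n k G)
    (fun m => toMv '' {g | g ∈ gns n k (tab G m)})
    (fun m => Set.image_mono fun g hg => gns_mono
      (fun e he => by rw [tab_succ]; exact List.mem_append_left _ he) hg)
    (by
      rintro m _ ⟨g, hg, rfl⟩
      exact gns_mem_adjoin (good_tab G m) hg)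
  refine ⟨m, exists_list_of_forall _ fun p hp => exists_cert (hm ⟨p, ?_, rfl⟩)⟩
  exact gns_mono (fun e he => by rw [tab_succ]; exact List.mem_append_right _ he) hp

lemma test_of_chk {n k : ℕ} {G : Grammar} {m : ℕ} {C : List Ct} (hC : Chk n k G (tab G m) C) :
    IsTwoWayTestSet n k (outp G (tab G m)) (language G) := by
  refine ⟨fun w hw => outp_subset hw, fun Δ T U =>
    ⟨fun H w hw => H w (outp_subset hw), fun hF w hw => ?_⟩⟩
  refine language_ok (Agree k T U) (fun V _ _ h =>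
    closed_le k (fun b => cond b T U) (fun p hp => ?_) V h) hF hw
  obtain ⟨c, -, hc⟩ := hC p hp
  exact mem_span_of_cert hc

lemma srch_dom (a : Grammar × ℕ × ℕ) : (Nat.rfindOpt (srch a)).Dom := by
  obtain ⟨m, C, hC⟩ := exists_chk a.2.1 a.2.2 a.1
  refine Nat.rfindOpt_dom.2 ⟨Encodable.encode (m, C), outp a.1 (tab a.1 m), ?_⟩
  simp [srch, hC]

theorem effective_tw : ∃ f : Grammar × ℕ × ℕ → List (List ℕ), Computable f ∧
    ∀ (G : Grammar) (n k : ℕ), IsTwoWayTestSet n k (f (G, n, k)) (language G) := by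
  refine ⟨fun a => (Nat.rfindOpt (srch a)).get (srch_dom a), ?_, fun G n k => ?_⟩
  · exact (Partrec.rfindOpt prim_srch.to_comp).of_eq_tot fun a => Part.get_mem _
  · obtain ⟨j, hj⟩ := Nat.rfindOpt_spec (Part.get_mem (srch_dom (G, n, k)))
    simp only [srch, Option.mem_def, Option.bind_eq_some_iff] at hj
    obtain ⟨nC, -, h⟩ := hj
    split_ifs at h with hC
    rw [Option.some.injEq] at h
    beta_reduce
    rw [← h]
    exact test_of_chk hC

end Pool.Agent.P.MP_8ee1cf_lc.TW
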