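import Mathlib
import Pool.Agent.P.MP_8ee1cf_lc.TW.Defs
import Pool.Agent.P.MP_8ee1cf_lc.Main

/-! Homomorphisms are one-state transducers, so these test sets are test sets. -/

namespace Pool.Agent.P.MP_8ee1cf_lc.TW

variable {Δ : Type}

/-- The one-state transducer of a homomorphism. -/
def ofHom (g : ℕ → List Δ) : TwoWay 1 Δ where
  init := Set.univ
  final := Set.univ
  edges := {e | e.2.2.1 = Sum.elim g (fun _ => []) e.2.1 ∧ e.2.2.2.1 = 1}

lemma run_ofHom (g : ℕ → List Δ) (w : List (ℕ ⊕ Bool)) {i j : ℕ} {p q : Fin 1} {v : List Δ}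
    (h : Run (ofHom g) w i p v j q) (hj : j = w.length) :
    v = (w.drop i).flatMap (Sum.elim g fun _ => []) := by
  induction h with
  | nil => simp [hj]
  | cons i j l p q r a v v' d h1 h2 h3 _ ih =>
    obtain ⟨rfl, rfl⟩ : v = Sum.elim g (fun _ => []) a ∧ d = 1 := h1
    obtain rfl : j = i + 1 := by simp at h3; omega
    obtain ⟨hi, rfl⟩ := List.getElem?_eq_some_iff.1 h2
    rw [ih hj, List.drop_eq_getElem_cons hi, List.flatMap_cons]

lemma ofHom_run (g : ℕ → List Δ) (w : List (ℕ ⊕ Bool)) (m : ℕ) : ∀ i, i + m = w.length →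
    Run (ofHom g) w i 0 ((w.drop i).flatMap (Sum.elim g fun _ => [])) w.length 0 := by
  induction m with
  | zero => rintro _ h; obtain rfl : _ = w.length := h; simpa using .nil _ _
  | succ m ih =>
    intro i h
    have hi : i < w.length := by omega
    rw [List.drop_eq_getElem_cons hi, List.flatMap_cons]
    exact .cons i (i + 1) _ 0 0 0 w[i] _ _ 1 ⟨rfl, rfl⟩ (List.getElem?_eq_getElem hi) (by simp)
      (ih _ (by omega))

lemma output_ofHom (g : ℕ → List Δ) (u : List ℕ) : output (ofHom g) u = {u.flatMap g} := by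
  have e : ((tape u).drop 0).flatMap (Sum.elim g fun _ => []) = u.flatMap g := by
    simp [tape, List.flatMap_map]
  ext v
  exact ⟨fun ⟨_, _, _, _, h⟩ => (run_ofHom g _ h rfl).trans e, by
    rintro rfl
    exact ⟨0, trivial, 0, trivial, e ▸ ofHom_run g _ _ 0 (Nat.zero_add _)⟩⟩

theorem isTestSet_of_twoWay {F : List (List ℕ)} {L : Set (List ℕ)}
    (h : IsTwoWayTestSet 1 1 F L) : IsTestSet F L := by
  refine ⟨h.1, fun Δ g g' => ?_⟩
  have := h.2 Δ (ofHom fun t => (g (.of t)).toList) (ofHom fun t => (g' (.of t)).toList)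
  simpa [Agree, output_ofHom, ← toList_hom] using this

end Pool.Agent.P.MP_8ee1cf_lc.TW
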